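import Pool.Agent.Q137.GL.Stmts

set_option autoImplicit false

namespace Q137.GL.TaskAeX

open MeasureTheory Set Filter Topology

lemma mem_AD {F : ℂ → ℂ} {x y : ℝ}
    (hx : DifferentiableAt ℝ (fun x : ℝ => F (x + y * Complex.I)) x) (k : ℕ) :
    ∃ n, ((x : ℂ) + y * Complex.I) ∈ AD F 1 k n := by
  have h1 := hx.hasDerivAt
  rw [hasDerivAt_iff_tendsto_slope_zero] at h1
  set D := deriv (fun x : ℝ => F (x + y * Complex.I)) x
  have hε : (0 : ℝ) < 1 / (2 * (k + 1)) := by positivity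
  have h2 := h1.eventually (Metric.ball_mem_nhds D hε)
  rw [eventually_nhdsWithin_iff, Metric.eventually_nhds_iff] at h2
  obtain ⟨δ, hδ, h2⟩ := h2
  obtain ⟨n, hn⟩ := exists_nat_one_div_lt hδ
  refine ⟨n, ?_⟩
  have key : ∀ s : ℝ, s ≠ 0 → |s| ≤ 1 / (n + 1) →
      ‖(F ((x : ℂ) + y * Complex.I + s * 1) - F ((x : ℂ) + y * Complex.I)) / s - D‖ < 1 / (2 * (k + 1)) := by
    intro s hs hs'
    have h3 := h2 (y := s) (by rw [Real.dist_eq, sub_zero]; exact lt_of_le_of_lt hs' hn) hs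
    rw [dist_eq_norm] at h3
    have h4 : (s : ℝ)⁻¹ • (F (((x + s : ℝ) : ℂ) + y * Complex.I) - F ((x : ℂ) + y * Complex.I)) =
        (F ((x : ℂ) + y * Complex.I + s * 1) - F ((x : ℂ) + y * Complex.I)) / s := by
      have h5 : (((x + s : ℝ) : ℂ) + y * Complex.I) = (x : ℂ) + y * Complex.I + s * 1 := by
        push_cast; ring
      rw [h5, Complex.real_smul, Complex.ofReal_inv]
      ring
    rw [← h4]
    exact h3
  intro s t hs hs' ht ht'
  have h5 := key s hs hs'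
  have h6 := key t ht ht'
  have h7 : (F ((x : ℂ) + y * Complex.I + s * 1) - F ((x : ℂ) + y * Complex.I)) / s -
      (F ((x : ℂ) + y * Complex.I + t * 1) - F ((x : ℂ) + y * Complex.I)) / t =
      ((F ((x : ℂ) + y * Complex.I + s * 1) - F ((x : ℂ) + y * Complex.I)) / s - D) -
      ((F ((x : ℂ) + y * Complex.I + t * 1) - F ((x : ℂ) + y * Complex.I)) / t - D) := by ring
  rw [h7]
  refine (norm_sub_le _ _).trans ?_
  have h8 : (1 : ℝ) / (2 * (k + 1)) + 1 / (2 * (k + 1)) = 1 / (k + 1) := by field_simp; norm_num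
  linarith

theorem main : TaskAeX := by
  intro hcl F hF hd
  have hGm : MeasurableSet (⋂ k, ⋃ n, AD F 1 k n) :=
    MeasurableSet.iInter fun k => MeasurableSet.iUnion fun n => (hcl F 1 k n hF).measurableSet
  generalize hG : (⋂ k, ⋃ n, AD F 1 k n) = G at hGm
  have hmemG : ∀ z, z ∈ G ↔ ∀ k, ∃ n, z ∈ AD F 1 k n := by
    intro z
    rw [← hG]
    simp only [Set.mem_iInter, Set.mem_iUnion]
  suffices h : ∀ᵐ z : ℂ, z ∈ G by
    filter_upwards [h] with z hz
    exact (hmemG z).mp hz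
  have hline : ∀ y : ℝ, ∀ᵐ x : ℝ, ((x : ℂ) + y * Complex.I) ∈ G := by
    intro y
    filter_upwards [hd y] with x hx
    exact (hmemG _).mpr fun k => mem_AD hx k
  have hmeas : MeasurableSet {p : ℝ × ℝ | ((p.1 : ℂ) + p.2 * Complex.I) ∈ G} := by
    have hc : Continuous fun p : ℝ × ℝ => (p.1 : ℂ) + p.2 * Complex.I := by fun_prop
    exact hc.measurable hGm
  have h1 : ∀ᵐ x : ℝ, ∀ᵐ y : ℝ, ((x : ℂ) + y * Complex.I) ∈ G :=
    (Measure.ae_ae_comm hmeas).mpr (Eventually.of_forall hline)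
  have hprod : ∀ᵐ p : ℝ × ℝ, ((p.1 : ℂ) + p.2 * Complex.I) ∈ G := by
    rw [Measure.volume_eq_prod]
    exact (Measure.ae_prod_iff_ae_ae hmeas).mpr h1
  have h2 := Complex.volume_preserving_equiv_real_prod.quasiMeasurePreserving.ae hprod
  filter_upwards [h2] with z hz
  simpa [Complex.re_add_im] using hz

end Q137.GL.TaskAeX
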