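import Pool.Agent.Q137.GL.Stmts

set_option autoImplicit false

namespace Q137.GL.TaskAeY

open MeasureTheory Set Filter Topology Q137.GL

theorem mem_of_diff (F : ℂ → ℂ) (x y : ℝ)
    (hd : DifferentiableAt ℝ (fun y : ℝ => F (x + y * Complex.I)) y) (k : ℕ) :
    ∃ n, ((x : ℂ) + y * Complex.I) ∈ AD F Complex.I k n := by
  obtain ⟨f', hf⟩ : ∃ f', HasDerivAt (fun y : ℝ => F (x + y * Complex.I)) f' y := ⟨_, hd.hasDerivAt⟩
  obtain ⟨c, hc, hc2⟩ : ∃ c : ℝ, 0 < c ∧ c + c = 1 / (k + 1) :=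
    ⟨1 / (k + 1) / 2, by positivity, by ring⟩
  have h1 := (hasDerivAt_iff_isLittleO_nhds_zero.1 hf).def hc
  obtain ⟨δ, hδ, h2⟩ := Metric.eventually_nhds_iff.1 h1
  obtain ⟨n, hn⟩ := exists_nat_one_div_lt hδ
  refine ⟨n, ?_⟩
  have key : ∀ s : ℝ, s ≠ 0 → |s| ≤ 1 / (n + 1) →
      ‖(F ((x : ℂ) + y * Complex.I + s * Complex.I) - F ((x : ℂ) + y * Complex.I)) / s - f'‖ ≤ c := by
    intro s hs hs2
    have h3 := h2 (y := s) (by rw [dist_zero_right, Real.norm_eq_abs]; exact lt_of_le_of_lt hs2 hn)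
    have hsC : (s : ℂ) ≠ 0 := by exact_mod_cast hs
    have e1 : (F ((x : ℂ) + y * Complex.I + s * Complex.I) - F ((x : ℂ) + y * Complex.I)) / s - f' =
        (F ((x : ℂ) + ((y + s : ℝ) : ℂ) * Complex.I) - F ((x : ℂ) + y * Complex.I) - s • f') / s := by
      have e2 : (x : ℂ) + ((y + s : ℝ) : ℂ) * Complex.I = (x : ℂ) + y * Complex.I + s * Complex.I := by
        push_cast
        ring
      rw [e2, Complex.real_smul]
      field_simp
    rw [e1, norm_div, Complex.norm_real, div_le_iff₀ (norm_pos_iff.2 hs)]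
    exact h3
  intro s t hs hs2 ht ht2
  have k1 := key s hs hs2
  have k2 := key t ht ht2
  rw [← hc2]
  calc _ = ‖((F ((x : ℂ) + y * Complex.I + s * Complex.I) - F ((x : ℂ) + y * Complex.I)) / s - f') -
        ((F ((x : ℂ) + y * Complex.I + t * Complex.I) - F ((x : ℂ) + y * Complex.I)) / t - f')‖ := by
          congr 1
          ring
    _ ≤ _ := norm_sub_le _ _
    _ ≤ _ := add_le_add k1 k2

theorem main : TaskAeY := by
  intro hcl F hF hd
  have hmeas : MeasurableSet {z : ℂ | ∀ k, ∃ n, z ∈ AD F Complex.I k n} := by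
    have : {z : ℂ | ∀ k, ∃ n, z ∈ AD F Complex.I k n} = ⋂ k, ⋃ n, AD F Complex.I k n := by
      ext z
      simp
    rw [this]
    exact MeasurableSet.iInter fun k => MeasurableSet.iUnion fun n =>
      (hcl F Complex.I k n hF).measurableSet
  have hmp := Complex.volume_preserving_equiv_real_prod
  rw [ae_iff]
  have hmp' := hmp.symm
  have hS : MeasurableSet {z : ℂ | ¬ ∀ k, ∃ n, z ∈ AD F Complex.I k n} := hmeas.compl
  rw [← hmp'.measure_preimage hS.nullMeasurableSet]
  rw [Measure.volume_eq_prod, Measure.measure_prod_null (hmp'.measurable hS)]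
  refine Filter.Eventually.of_forall fun x => ?_
  refine measure_mono_null ?_ (ae_iff.1 (hd x))
  intro y hy hyd
  apply hy
  intro k
  obtain ⟨n, hn⟩ := mem_of_diff F x y hyd k
  refine ⟨n, ?_⟩
  have e : Complex.measurableEquivRealProd.symm (x, y) = (x : ℂ) + y * Complex.I := by
    rw [Complex.measurableEquivRealProd_symm_apply]
    apply Complex.ext <;> simp
  rw [e]
  exact hn

end Q137.GL.TaskAeY
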