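import Pool.Agent.Q137.GL.Stmts

set_option autoImplicit false

namespace Q137.GL.TaskVer

open MeasureTheory Set Filter Topology
open Q137.HD (IsC1Curve)

theorem isC1Curve_rot {C : Set ℂ} (hC : IsC1Curve C) :
    IsC1Curve ((fun z : ℂ => Complex.I * z) '' C) := by
  obtain ⟨γ, h1, h2, h3, h4, rfl⟩ := hC
  refine ⟨fun t => Complex.I * γ t, contDiff_const.mul h1, fun t => by simp [h2], fun t => ?_, ?_, ?_⟩
  · have hd : deriv (fun t => Complex.I * γ t) t = Complex.I * deriv γ t :=
      (((h1.differentiable one_ne_zero t).hasDerivAt).const_mul Complex.I).deriv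
    rw [hd]
    exact mul_ne_zero Complex.I_ne_zero (h3 t)
  · intro a ha b hb hab
    exact h4 ha hb (mul_left_cancel₀ Complex.I_ne_zero hab)
  · rw [← Set.range_comp]
    rfl

theorem main : Q137.GL.TaskVer := by
  intro hor F hF hinj hP x
  have hP' : Q137.GL.Pres (fun z : ℂ => F (Complex.I * z)) := by
    intro C hC
    have e : (fun z : ℂ => F (Complex.I * z)) '' C = F '' ((fun z : ℂ => Complex.I * z) '' C) := by
      rw [Set.image_image]
    rw [e]
    exact hP _ (isC1Curve_rot hC)
  have h := hor (fun z : ℂ => F (Complex.I * z)) (hF.comp (continuous_const.mul continuous_id))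
    (fun a b hab => mul_left_cancel₀ Complex.I_ne_zero (hinj hab)) hP' (-x)
  refine h.mono (fun y hy => ?_)
  have e : (fun t : ℝ => F (Complex.I * ((t : ℂ) + ((-x : ℝ) : ℂ) * Complex.I))) =
      fun t : ℝ => F ((x : ℂ) + (t : ℂ) * Complex.I) := by
    funext t
    congr 1
    push_cast
    linear_combination (-(x : ℂ)) * Complex.I_mul_I
  have hy' : DifferentiableAt ℝ
      (fun t : ℝ => F (Complex.I * ((t : ℂ) + ((-x : ℝ) : ℂ) * Complex.I))) y := hy
  rw [e] at hy'
  exact hy'

end Q137.GL.TaskVer
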