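import Pool.Agent.Q137.GL.Stmts2

set_option autoImplicit false

namespace Q137.GL.RectL137

open MeasureTheory Set Filter Topology
open Q137.GL

theorem main : TaskRectL := by
  intro hMax F V z₀ B p q ρ ε hV hF ho hz₀ hρ hε hest hD
  obtain ⟨j, hj⟩ := exists_nat_gt ((‖p‖ + ‖q‖) / ε)
  obtain ⟨δ₁, hδ₁, hD1⟩ := (hD j).1
  obtain ⟨δ₂, hδ₂, hD2⟩ := (hD j).2
  obtain ⟨R, hR, hball⟩ := Metric.isOpen_iff.1 hV z₀ hz₀
  have hj1 : (0 : ℝ) < j + 1 := by positivity
  have hpq : (‖p‖ + ‖q‖) / (j + 1) ≤ ε := by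
    rw [div_le_iff₀ hj1]
    rw [div_lt_iff₀ hε] at hj
    nlinarith
  refine ⟨min (min (ρ / 2) (R / 8)) (min (δ₁ / 2) (δ₂ / 2)), by positivity, ?_⟩
  intro x y hx hy
  have hxρ : |x| ≤ ρ / 2 := hx.trans ((min_le_left _ _).trans (min_le_left _ _))
  have hyρ : |y| ≤ ρ / 2 := hy.trans ((min_le_left _ _).trans (min_le_left _ _))
  have hxR : |x| ≤ R / 8 := hx.trans ((min_le_left _ _).trans (min_le_right _ _))
  have hyR : |y| ≤ R / 8 := hy.trans ((min_le_left _ _).trans (min_le_right _ _))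
  have hx1 : |x| ≤ δ₁ / 2 := hx.trans ((min_le_right _ _).trans (min_le_left _ _))
  have hy1 : |y| ≤ δ₁ / 2 := hy.trans ((min_le_right _ _).trans (min_le_left _ _))
  have hx2 : |x| ≤ δ₂ / 2 := hx.trans ((min_le_right _ _).trans (min_le_right _ _))
  have hy2 : |y| ≤ δ₂ / 2 := hy.trans ((min_le_right _ _).trans (min_le_right _ _))
  set r : ℝ := max |x| |y| with hr
  have hxr : |x| ≤ r := le_max_left _ _
  have hyr : |y| ≤ r := le_max_right _ _
  have hrs : r ≤ |x| + |y| := max_le (by linarith [abs_nonneg y]) (by linarith [abs_nonneg x])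
  have hr0 : 0 ≤ r := (abs_nonneg x).trans hxr
  rcases hr0.eq_or_lt with h0 | h0
  · have hx0 : x = 0 := abs_eq_zero.1 (le_antisymm (by linarith) (abs_nonneg x))
    have hy0 : y = 0 := abs_eq_zero.1 (le_antisymm (by linarith) (abs_nonneg y))
    subst hx0 hy0
    simp
  · set η : ℝ := r / (j + 1) with hη
    have hη0 : 0 < η := by positivity
    have hηr : η ≤ r := by
      rw [hη, div_le_iff₀ hj1]
      nlinarith [(Nat.cast_nonneg j : (0 : ℝ) ≤ j)]
    have hrδ1 : r < δ₁ := by
      have : r ≤ δ₁ / 2 := max_le hx1 hy1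
      linarith
    have hrδ2 : r < δ₂ := by
      have : r ≤ δ₂ / 2 := max_le hx2 hy2
      linarith
    have hrρ : r ≤ ρ / 2 := max_le hxρ hyρ
    have hrR : r ≤ R / 8 := max_le hxR hyR
    have hxx := abs_le.1 hxr
    have hyy := abs_le.1 hyr
    obtain ⟨x₁, hx₁, hx₁', hx₁B⟩ := hD1 r h0 hrδ1 (x - η) (by
      rw [abs_le]; constructor <;> linarith)
    obtain ⟨x₂, hx₂, hx₂', hx₂B⟩ := hD1 r h0 hrδ1 x (by linarith)
    obtain ⟨y₁, hy₁, hy₁', hy₁B⟩ := hD2 r h0 hrδ2 (y - η) (by
      rw [abs_le]; constructor <;> linarith)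
    obtain ⟨y₂, hy₂, hy₂', hy₂B⟩ := hD2 r h0 hrδ2 y (by linarith)
    rw [mul_one] at hx₁B hx₂B
    have hdec : ∀ w : ℂ, w = z₀ + ((w.re - z₀.re : ℝ) : ℂ) + ((w.im - z₀.im : ℝ) : ℂ) * Complex.I := by
      intro w
      apply Complex.ext
      · simp
      · simp
    have hmain := hMax F V hV hF ho (z₀.re + x₁) (z₀.re + x₂) (z₀.im + y₁) (z₀.im + y₂)
      (4 * ε * (|x| + |y|)) (F z₀ + x * p + y * q) (z₀ + x + y * Complex.I) ?_ ?_ ?_ ?_ ?_ ?_
    · have e : F (z₀ + x + y * Complex.I) - F z₀ - x * p - y * q =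
          F (z₀ + x + y * Complex.I) - (F z₀ + x * p + y * q) := by ring
      rw [e]
      exact hmain
    · intro w h1 h2 h3 h4
      apply hball
      rw [mem_ball_iff_norm]
      have e : w - z₀ = ((w.re - z₀.re : ℝ) : ℂ) + ((w.im - z₀.im : ℝ) : ℂ) * Complex.I := by
        have := hdec w
        linear_combination this
      rw [e]
      have h5 : |w.re - z₀.re| ≤ 2 * r := by rw [abs_le]; constructor <;> linarith
      have h6 : |w.im - z₀.im| ≤ 2 * r := by rw [abs_le]; constructor <;> linarith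
      calc ‖((w.re - z₀.re : ℝ) : ℂ) + ((w.im - z₀.im : ℝ) : ℂ) * Complex.I‖
          ≤ ‖((w.re - z₀.re : ℝ) : ℂ)‖ + ‖((w.im - z₀.im : ℝ) : ℂ) * Complex.I‖ := norm_add_le _ _
        _ = |w.re - z₀.re| + |w.im - z₀.im| := by
            rw [norm_mul, Complex.norm_I, mul_one, Complex.norm_real, Complex.norm_real,
              Real.norm_eq_abs, Real.norm_eq_abs]
        _ < R := by linarith
    · simp; linarith
    · simp; linarith
    · simp; linarith
    · simp; linarith
    · intro w h1 h2 h3 h4 hb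
      set ξ : ℝ := w.re - z₀.re with hξ
      set υ : ℝ := w.im - z₀.im with hυ
      have h5 : |ξ| ≤ |x| + η := by
        have : |ξ - x| ≤ η := by rw [abs_le]; constructor <;> linarith
        have h7 := abs_sub_abs_le_abs_sub ξ x
        linarith
      have h6 : |υ| ≤ |y| + η := by
        have : |υ - y| ≤ η := by rw [abs_le]; constructor <;> linarith
        have h7 := abs_sub_abs_le_abs_sub υ y
        linarith
      have h7 : |ξ - x| ≤ η := by rw [abs_le]; constructor <;> linarith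
      have h8 : |υ - y| ≤ η := by rw [abs_le]; constructor <;> linarith
      have hB : z₀ + ξ ∈ B ∨ z₀ + υ * Complex.I ∈ B := by
        rcases hb with h | h | h | h
        · left
          have : ξ = x₁ := by rw [hξ, h]; ring
          rw [this]; exact hx₁B
        · left
          have : ξ = x₂ := by rw [hξ, h]; ring
          rw [this]; exact hx₂B
        · right
          have : υ = y₁ := by rw [hυ, h]; ring
          rw [this]; exact hy₁B
        · right
          have : υ = y₂ := by rw [hυ, h]; ring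
          rw [this]; exact hy₂B
      have h9 := hest ξ υ (by linarith) (by linarith) hB
      rw [← hdec w] at h9
      have e : F w - (F z₀ + x * p + y * q) = (F w - F z₀ - ξ * p - υ * q) +
          ((ξ - x : ℝ) : ℂ) * p + ((υ - y : ℝ) : ℂ) * q := by
        push_cast; ring
      rw [e]
      calc ‖(F w - F z₀ - ξ * p - υ * q) + ((ξ - x : ℝ) : ℂ) * p + ((υ - y : ℝ) : ℂ) * q‖
          ≤ ‖F w - F z₀ - ξ * p - υ * q‖ + ‖((ξ - x : ℝ) : ℂ) * p‖ + ‖((υ - y : ℝ) : ℂ) * q‖ :=
            norm_add₃_le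
        _ ≤ ε * (|ξ| + |υ|) + η * ‖p‖ + η * ‖q‖ := by
            rw [norm_mul, norm_mul, Complex.norm_real, Complex.norm_real, Real.norm_eq_abs,
              Real.norm_eq_abs]
            gcongr
        _ ≤ ε * (|x| + |y| + 2 * η) + r * ((‖p‖ + ‖q‖) / (j + 1)) := by
            have h10 : η * ‖p‖ + η * ‖q‖ = r * ((‖p‖ + ‖q‖) / (j + 1)) := by
              rw [hη]; ring
            have h11 : ε * (|ξ| + |υ|) ≤ ε * (|x| + |y| + 2 * η) := by
              apply mul_le_mul_of_nonneg_left _ hε.le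
              linarith
            linarith
        _ ≤ ε * (|x| + |y| + 2 * r) + r * ε := by
            have h10 : r * ((‖p‖ + ‖q‖) / (j + 1)) ≤ r * ε := mul_le_mul_of_nonneg_left hpq hr0
            have h11 : ε * (|x| + |y| + 2 * η) ≤ ε * (|x| + |y| + 2 * r) := by
              apply mul_le_mul_of_nonneg_left _ hε.le
              linarith
            linarith
        _ ≤ 4 * ε * (|x| + |y|) := by nlinarith

end Q137.GL.RectL137
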