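import Pool.Agent.Q137.GL.Stmts

set_option autoImplicit false

open Set Filter Topology

namespace Q137.GL.TaskBd

private lemma step {F : ℂ → ℂ} {v : ℂ} {k n : ℕ} {z : ℂ} (hz : z ∈ AD F v k n) {τ : ℝ}
    (hτ : τ = 1 / (n + 1)) {s : ℝ} (hs : |s| ≤ τ) :
    ‖F (z + s * v) - F z - s * ((F (z + τ * v) - F z) / τ)‖ ≤ 1 / (k + 1) * |s| := by
  have hτ0 : 0 < τ := by rw [hτ]; positivity
  by_cases h0 : s = 0
  · rw [h0]; simp
  · have h1 := hz s τ h0 (by rw [← hτ]; exact hs) hτ0.ne' (by rw [← hτ, abs_of_pos hτ0])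
    have hsC : (s : ℂ) ≠ 0 := by exact_mod_cast h0
    have e : F (z + s * v) - F z - s * ((F (z + τ * v) - F z) / τ) =
        s * ((F (z + s * v) - F z) / s - (F (z + τ * v) - F z) / τ) := by
      rw [mul_sub, mul_div_cancel₀ _ hsC]
    rw [e, norm_mul, Complex.norm_real, Real.norm_eq_abs, mul_comm]
    exact mul_le_mul_of_nonneg_right h1 (abs_nonneg _)

theorem main : Q137.GL.TaskBd := by
  intro F z₀ k n hF hz₀
  obtain ⟨τ, hτ⟩ : ∃ τ : ℝ, τ = 1 / (n + 1) := ⟨_, rfl⟩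
  have hτ0 : 0 < τ := by rw [hτ]; positivity
  obtain ⟨ε, hε⟩ : ∃ ε : ℝ, ε = 1 / (k + 1) := ⟨_, rfl⟩
  have hε0 : 0 < ε := by rw [hε]; positivity
  have hP : Continuous fun z : ℂ => (F (z + τ * 1) - F z) / τ :=
    ((hF.comp (continuous_id.add continuous_const)).sub hF).div_const _
  have hQ : Continuous fun z : ℂ => (F (z + τ * Complex.I) - F z) / τ :=
    ((hF.comp (continuous_id.add continuous_const)).sub hF).div_const _
  obtain ⟨r1, hr1, h1⟩ := Metric.continuous_iff.mp hP z₀ ε hε0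
  obtain ⟨r2, hr2, h2⟩ := Metric.continuous_iff.mp hQ z₀ ε hε0
  refine ⟨(F (z₀ + τ * 1) - F z₀) / τ, (F (z₀ + τ * Complex.I) - F z₀) / τ,
    min τ (min (r1 / 2) (r2 / 2)), by positivity, ?_⟩
  intro x y hx hy hB
  have hxτ := hx.trans (min_le_left _ _)
  have hyτ := hy.trans (min_le_left _ _)
  have hx2 := hx.trans ((min_le_right _ _).trans (min_le_right _ _))
  have hy1 := hy.trans ((min_le_right _ _).trans (min_le_left _ _))
  have hax := abs_nonneg x
  have hay := abs_nonneg y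
  rw [show (4 / ((k : ℝ) + 1)) = 4 * ε by rw [hε]; ring]
  rcases hB with hB | hB
  · have a1 := step hB.2 hτ hyτ
    have a2 := step hz₀.1 hτ hxτ
    have a3 := h2 (z₀ + x) (by
      rw [dist_eq_norm, add_sub_cancel_left, Complex.norm_real, Real.norm_eq_abs]
      linarith)
    rw [dist_eq_norm] at a3
    rw [← hε] at a1 a2
    rw [mul_one] at a2
    have a4 : ‖(y : ℂ) * ((F (z₀ + x + τ * Complex.I) - F (z₀ + x)) / τ -
        (F (z₀ + τ * Complex.I) - F z₀) / τ)‖ ≤ |y| * ε := by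
      rw [norm_mul, Complex.norm_real, Real.norm_eq_abs]
      exact mul_le_mul_of_nonneg_left a3.le hay
    have e : F (z₀ + x + y * Complex.I) - F z₀ - x * ((F (z₀ + τ * 1) - F z₀) / τ) -
        y * ((F (z₀ + τ * Complex.I) - F z₀) / τ) =
        (F (z₀ + x + y * Complex.I) - F (z₀ + x) -
          y * ((F (z₀ + x + τ * Complex.I) - F (z₀ + x)) / τ)) +
        y * ((F (z₀ + x + τ * Complex.I) - F (z₀ + x)) / τ -
          (F (z₀ + τ * Complex.I) - F z₀) / τ) +
        (F (z₀ + x) - F z₀ - x * ((F (z₀ + τ * 1) - F z₀) / τ)) := by ring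
    rw [e]
    refine (norm_add₃_le).trans ?_
    nlinarith
  · have a1 := step hB.1 hτ hxτ
    have a2 := step hz₀.2 hτ hyτ
    have a3 := h1 (z₀ + y * Complex.I) (by
      rw [dist_eq_norm, add_sub_cancel_left, norm_mul, Complex.norm_I, mul_one,
        Complex.norm_real, Real.norm_eq_abs]
      linarith)
    rw [dist_eq_norm] at a3
    rw [← hε] at a1 a2
    have a4 : ‖(x : ℂ) * ((F (z₀ + y * Complex.I + τ * 1) - F (z₀ + y * Complex.I)) / τ -
        (F (z₀ + τ * 1) - F z₀) / τ)‖ ≤ |x| * ε := by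
      rw [norm_mul, Complex.norm_real, Real.norm_eq_abs]
      exact mul_le_mul_of_nonneg_left a3.le hax
    have e0 : z₀ + x + y * Complex.I = z₀ + y * Complex.I + x * 1 := by ring
    have e : F (z₀ + x + y * Complex.I) - F z₀ - x * ((F (z₀ + τ * 1) - F z₀) / τ) -
        y * ((F (z₀ + τ * Complex.I) - F z₀) / τ) =
        (F (z₀ + y * Complex.I + x * 1) - F (z₀ + y * Complex.I) -
          x * ((F (z₀ + y * Complex.I + τ * 1) - F (z₀ + y * Complex.I)) / τ)) +
        x * ((F (z₀ + y * Complex.I + τ * 1) - F (z₀ + y * Complex.I)) / τ -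
          (F (z₀ + τ * 1) - F z₀) / τ) +
        (F (z₀ + y * Complex.I) - F z₀ - y * ((F (z₀ + τ * Complex.I) - F z₀) / τ)) := by
      rw [e0]; ring
    rw [e]
    refine (norm_add₃_le).trans ?_
    nlinarith

end Q137.GL.TaskBd
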