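import Pool.Agent.Q137.GL.Stmts

set_option autoImplicit false

namespace Q137.GL.TaskClosed

open Q137.GL

theorem main : Q137.GL.TaskClosed := by
  intro F v k n hF
  have h : AD F v k n = ⋂ s : ℝ, ⋂ t : ℝ, ⋂ _ : s ≠ 0, ⋂ _ : |s| ≤ 1 / ((n : ℝ) + 1), ⋂ _ : t ≠ 0,
      ⋂ _ : |t| ≤ 1 / ((n : ℝ) + 1),
        {z : ℂ | ‖(F (z + s * v) - F z) / s - (F (z + t * v) - F z) / t‖ ≤ 1 / ((k : ℝ) + 1)} := by
    ext z
    simp only [Set.mem_iInter]
    constructor
    · intro hz s t h1 h2 h3 h4
      exact hz s t h1 h2 h3 h4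
    · intro hz s t h1 h2 h3 h4
      exact hz s t h1 h2 h3 h4
  rw [h]
  refine isClosed_iInter fun s => isClosed_iInter fun t => isClosed_iInter fun _ =>
    isClosed_iInter fun _ => isClosed_iInter fun _ => isClosed_iInter fun _ => ?_
  refine isClosed_le ?_ continuous_const
  have h1 : Continuous (fun z : ℂ => F (z + s * v)) := hF.comp (continuous_id.add continuous_const)
  have h2 : Continuous (fun z : ℂ => F (z + t * v)) := hF.comp (continuous_id.add continuous_const)
  exact (((h1.sub hF).div_const _).sub ((h2.sub hF).div_const _)).norm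

end Q137.GL.TaskClosed
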