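import Pool.Agent.Q137.GL.Stmts2

set_option autoImplicit false

namespace Q137.GL.TaskCover

open MeasureTheory Set Filter Topology
open scoped Manifold ContDiff
open Q137.HD (IsC1Curve)

theorem main : Q137.GL.TaskCover := by
  intro hMD hL hIn hOut hAE S _ _ _ f hf φ hφ
  have hchart : ∀ p : S, chartAt ℂ p ∈ IsManifold.maximalAtlas 𝓘(ℝ, ℂ) ∞ S := fun p =>
    IsManifold.chart_mem_maximalAtlas p
  have hLoc : ∀ p : S, Loc (fun z => (chartAt ℂ p) (f (φ.symm z)))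
      (φ.target ∩ {z | f (φ.symm z) ∈ (chartAt ℂ p).source}) := fun p =>
    hL hIn hOut S φ (chartAt ℂ p) hφ (hchart p) f hf
  obtain ⟨T, hTc, hT⟩ := TopologicalSpace.isOpen_iUnion_countable
    (fun p : S => φ.target ∩ {z | f (φ.symm z) ∈ (chartAt ℂ p).source}) (fun p => (hLoc p).op)
  have hae : ∀ᵐ z : ℂ, ∀ p ∈ T, z ∈ φ.target ∩ {z | f (φ.symm z) ∈ (chartAt ℂ p).source} →
      DifferentiableAt ℝ (fun z => (chartAt ℂ p) (f (φ.symm z))) z :=
    (ae_ball_iff hTc).mpr fun p _ => hAE _ _ (hLoc p)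
  refine measure_mono_null ?_ (ae_iff.mp hae)
  rintro z ⟨q, ⟨hq, hnd⟩, rfl⟩
  intro hall
  apply hnd
  have hz : φ q ∈ ⋃ p : S, φ.target ∩ {z | f (φ.symm z) ∈ (chartAt ℂ p).source} := by
    refine mem_iUnion.mpr ⟨f q, φ.map_source hq, ?_⟩
    show f (φ.symm (φ q)) ∈ (chartAt ℂ (f q)).source
    rw [φ.left_inv hq]
    exact mem_chart_source ℂ (f q)
  rw [← hT] at hz
  obtain ⟨p, hp, hzp⟩ := mem_iUnion₂.mp hz
  have hfq : f q ∈ (chartAt ℂ p).source := by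
    have := hzp.2
    rwa [mem_setOf_eq, φ.left_inv hq] at this
  exact hMD S φ (chartAt ℂ p) hφ (hchart p) f q hq hfq (hall p hp hzp)

end Q137.GL.TaskCover
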