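import Pool.Agent.Q137.GL.Stmts2

set_option autoImplicit false

namespace Q137.GL.TaskCurveIn

open MeasureTheory Set Filter Topology
open scoped Manifold ContDiff
open Q137.HD (IsC1Curve)

theorem main : Q137.GL.TaskCurveIn := by
  intro S _ _ _ φ hφ C hC hcurve
  obtain ⟨γ, h1, h2, h3, h4, rfl⟩ := hcurve
  have hmem : ∀ t, γ t ∈ φ.target := fun t => hC (mem_range_self t)
  have hle : (1 : WithTop ℕ∞) ≤ ∞ := by exact_mod_cast le_top
  have hs : ContMDiffOn 𝓘(ℝ, ℂ) 𝓘(ℝ, ℂ) 1 φ.symm φ.target :=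
    (contMDiffOn_symm_of_mem_maximalAtlas hφ).of_le hle
  have hf : ContMDiffOn 𝓘(ℝ, ℂ) 𝓘(ℝ, ℂ) 1 φ φ.source :=
    (contMDiffOn_of_mem_maximalAtlas hφ).of_le hle
  have hη : ContMDiff 𝓘(ℝ, ℝ) 𝓘(ℝ, ℂ) 1 (φ.symm ∘ γ) := hs.comp_contMDiff h1.contMDiff hmem
  refine ⟨φ.symm ∘ γ, hη, fun t => by simp [h2], fun t h0 => ?_, ?_, ?_⟩
  · have hd1 : MDifferentiableAt 𝓘(ℝ, ℝ) 𝓘(ℝ, ℂ) (φ.symm ∘ γ) t :=
      (hη t).mdifferentiableAt one_ne_zero
    have hsrc : (φ.symm ∘ γ) t ∈ φ.source := φ.map_target (hmem t)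
    have hd2 : MDifferentiableAt 𝓘(ℝ, ℂ) 𝓘(ℝ, ℂ) φ ((φ.symm ∘ γ) t) :=
      ((hf _ hsrc).contMDiffAt (φ.open_source.mem_nhds hsrc)).mdifferentiableAt one_ne_zero
    have hcomp : φ ∘ (φ.symm ∘ γ) = γ := by
      funext s
      exact φ.right_inv (hmem s)
    have hm := mfderiv_comp t hd2 hd1
    rw [hcomp, h0, mfderiv_eq_fderiv] at hm
    have h5 : fderiv ℝ γ t = 0 := by
      rw [hm]
      exact ContinuousLinearMap.comp_zero _
    apply h3 t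
    rw [← fderiv_apply_one_eq_deriv, h5]
    rfl
  · intro a ha b hb hab
    exact h4 ha hb (φ.symm.injOn (by simpa using hmem a) (by simpa using hmem b) hab)
  · rw [← Set.range_comp]

end Q137.GL.TaskCurveIn
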