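import Pool.Agent.Q137.GL.Stmts2

set_option autoImplicit false

namespace Q137.GL.TaskCurveOut

open MeasureTheory Set Filter Topology
open scoped Manifold ContDiff
open Q137.HD (IsC1Curve)

theorem main : TaskCurveOut := by
  intro S _ _ _ φ hφ C hC hcurve
  obtain ⟨γ, hγ, hper, hne, hinj, hCr⟩ := hcurve
  have hsrc : ∀ t, γ t ∈ φ.source := fun t => hC (hCr ▸ mem_range_self t)
  have h1 : ContMDiff 𝓘(ℝ, ℝ) 𝓘(ℝ, ℂ) 1 (fun t => φ (γ t)) := by
    intro t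
    have ha : ContMDiffAt 𝓘(ℝ, ℂ) 𝓘(ℝ, ℂ) ∞ φ (γ t) :=
      (contMDiffOn_of_mem_maximalAtlas hφ).contMDiffAt (φ.open_source.mem_nhds (hsrc t))
    exact (ha.of_le (by exact_mod_cast le_top)).comp t (hγ t)
  have h2 : ContDiff ℝ 1 (fun t => φ (γ t)) := h1.contDiff
  refine ⟨fun t => φ (γ t), h2, fun t => by simp only [hper t], ?_, ?_, ?_⟩
  · intro t ht
    apply hne t
    have hs : MDifferentiableAt 𝓘(ℝ, ℂ) 𝓘(ℝ, ℂ) φ.symm (φ (γ t)) := by
      have hb : ContMDiffAt 𝓘(ℝ, ℂ) 𝓘(ℝ, ℂ) ∞ φ.symm (φ (γ t)) :=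
        (contMDiffOn_symm_of_mem_maximalAtlas hφ).contMDiffAt
          (φ.open_target.mem_nhds (φ.map_source (hsrc t)))
      exact hb.mdifferentiableAt (by simp)
    have hd : MDifferentiableAt 𝓘(ℝ, ℝ) 𝓘(ℝ, ℂ) (fun t => φ (γ t)) t :=
      (h1 t).mdifferentiableAt (by simp)
    have hγe : γ = φ.symm ∘ (fun t => φ (γ t)) := by
      funext s
      simp [φ.left_inv (hsrc s)]
    have hz : mfderiv 𝓘(ℝ, ℝ) 𝓘(ℝ, ℂ) (fun t => φ (γ t)) t = 0 := by
      have hf : fderiv ℝ (fun t => φ (γ t)) t = 0 := by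
        ext
        rw [fderiv_apply_one_eq_deriv, ht]
        rfl
      rw [mfderiv_eq_fderiv]
      exact hf
    have hc := mfderiv_comp t hs hd
    rw [← hγe, hz] at hc
    exact hc.trans (ContinuousLinearMap.comp_zero _)
  · intro s hs t ht hst
    exact hinj hs ht (φ.injOn (hsrc s) (hsrc t) hst)
  · rw [hCr, ← range_comp]
    rfl

end Q137.GL.TaskCurveOut
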