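import Pool.Agent.Q137.GL.Stmts

/-! # Lebesgue density on the line -/

set_option autoImplicit false

namespace Q137.GL.TaskDens1

open MeasureTheory Set Filter Topology
open Q137.GL

theorem main : Q137.GL.TaskDens1 := by
  intro B j hB
  have h := Besicovitch.ae_tendsto_measure_inter_div (volume : Measure ℝ) B
  rw [ae_restrict_iff' hB.measurableSet] at h
  filter_upwards [h] with x hx hxB
  have ht := hx hxB
  have hj : (0 : ℝ) < j + 1 := by positivity
  have hj1 : (1 : ℝ) ≤ j + 1 := by
    have : (0 : ℝ) ≤ j := Nat.cast_nonneg j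
    linarith
  have hη : (0 : ℝ) < 1 / (16 * (j + 1)) := by positivity
  have hη1 : 1 / (16 * ((j : ℝ) + 1)) ≤ 1 := by
    rw [div_le_one (by positivity)]
    linarith
  have hlt : ENNReal.ofReal (1 - 1 / (16 * (j + 1))) < 1 := by
    rw [ENNReal.ofReal_lt_one]
    linarith
  have hev := ht.eventually (lt_mem_nhds hlt)
  rw [eventually_nhdsWithin_iff, Metric.eventually_nhds_iff] at hev
  obtain ⟨δ, hδ, hd⟩ := hev
  refine ⟨δ / 4, by positivity, fun r hr hrd a ha => ?_⟩
  by_contra hcon
  push Not at hcon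
  have h4 : (0 : ℝ) < 4 * r := by positivity
  have hh := @hd (4 * r) (by
    rw [Real.dist_eq, sub_zero, abs_of_pos h4]
    linarith) h4
  obtain ⟨ha1, ha2⟩ := abs_lt.1 ha
  have hq1 : 0 < r / (4 * ((j : ℝ) + 1)) := by positivity
  have hq2 : 3 * r / (4 * ((j : ℝ) + 1)) ≤ r := by
    rw [div_le_iff₀ (by positivity)]
    nlinarith
  have hsub : B ∩ Metric.closedBall x (4 * r) ⊆ Metric.closedBall x (4 * r) \
      Icc (x + (a + r / (4 * (j + 1)))) (x + (a + 3 * r / (4 * (j + 1)))) := by
    rintro y ⟨hyB, hyc⟩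
    refine ⟨hyc, fun hy => ?_⟩
    exact hcon (y - x) ⟨by linarith [hy.1], by linarith [hy.2]⟩ (by simpa using hyB)
  have hIsub : Icc (x + (a + r / (4 * (j + 1)))) (x + (a + 3 * r / (4 * (j + 1)))) ⊆
      Metric.closedBall x (4 * r) := by
    rw [Real.closedBall_eq_Icc]
    exact Icc_subset_Icc (by linarith) (by linarith)
  have hvol : volume (B ∩ Metric.closedBall x (4 * r)) ≤
      ENNReal.ofReal ((1 - 1 / (16 * (j + 1))) * (2 * (4 * r))) := by
    refine (measure_mono hsub).trans ?_
    rw [measure_sdiff hIsub measurableSet_Icc.nullMeasurableSet (by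
      rw [Real.volume_Icc]; exact ENNReal.ofReal_ne_top), Real.volume_closedBall, Real.volume_Icc,
      ← ENNReal.ofReal_sub _ (by
        have : r / (4 * ((j : ℝ) + 1)) ≤ 3 * r / (4 * (j + 1)) :=
          div_le_div_of_nonneg_right (by linarith) (by positivity)
        linarith)]
    refine ENNReal.ofReal_le_ofReal (le_of_eq ?_)
    field_simp
    ring
  rw [ENNReal.lt_div_iff_mul_lt (Or.inl (by
      rw [Real.volume_closedBall]; simpa using h4)) (Or.inl (by
      rw [Real.volume_closedBall]; exact ENNReal.ofReal_ne_top)), Real.volume_closedBall,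
      ← ENNReal.ofReal_mul (by linarith)] at hh
  exact absurd hh (not_lt.2 hvol)

end Q137.GL.TaskDens1
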