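import Pool.Agent.Q137.GL.Stmts
set_option autoImplicit false

namespace Q137.GL.TaskDensX

open MeasureTheory Set Filter Topology Q137.GL

/-- the open sets of the points where an interval of scale less than `1/(m+1)` misses `B` -/
def OO (B : Set ℂ) (j m : ℕ) : Set ℂ := {z | ∃ r a : ℝ, (0 < r ∧ r < 1 / ((m : ℝ) + 1) ∧ |a| < 3 * r) ∧
  ∀ t ∈ Icc (a + r / (4 * ((j : ℝ) + 1))) (a + 3 * r / (4 * ((j : ℝ) + 1))), z + (t : ℂ) ∉ B}

theorem isOpen_OO (B : Set ℂ) (hB : IsClosed B) (j m : ℕ) : IsOpen (OO B j m) := by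
  rw [isOpen_iff_mem_nhds]
  rintro z ⟨r, a, h, hz⟩
  have h1 : ∀ᶠ w in 𝓝 z, ∀ t ∈ Icc (a + r / (4 * ((j : ℝ) + 1))) (a + 3 * r / (4 * ((j : ℝ) + 1))),
      w + (t : ℂ) ∉ B := by
    refine isCompact_Icc.eventually_forall_of_forall_eventually fun t ht => ?_
    have hc : Continuous fun p : ℂ × ℝ => p.1 + (p.2 : ℂ) := by fun_prop
    exact (hB.isOpen_compl.preimage hc).mem_nhds (hz t ht)
  filter_upwards [h1] with w hw
  exact ⟨r, a, h, hw⟩

theorem null (hD : TaskDens1) (B : Set ℂ) (j : ℕ) (hB : IsClosed B) :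
    volume (B ∩ ⋂ m, OO B j m) = 0 := by
  have hN : MeasurableSet (B ∩ ⋂ m, OO B j m) :=
    hB.measurableSet.inter (MeasurableSet.iInter fun m => (isOpen_OO B hB j m).measurableSet)
  have hmp := Complex.volume_preserving_equiv_real_prod.symm Complex.measurableEquivRealProd
  rw [← hmp.measure_preimage hN.nullMeasurableSet, Measure.volume_eq_prod,
    Measure.prod_apply_symm (Complex.measurableEquivRealProd.symm.measurable hN)]
  refine (lintegral_congr fun y => ?_).trans lintegral_zero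
  have hcl : IsClosed {x : ℝ | (x : ℂ) + (y : ℂ) * Complex.I ∈ B} :=
    hB.preimage (by fun_prop : Continuous fun x : ℝ => (x : ℂ) + (y : ℂ) * Complex.I)
  refine measure_mono_null ?_ (ae_iff.1 (hD _ j hcl))
  intro x hx
  have hx1 : ((x : ℂ) + (y : ℂ) * Complex.I) ∈ B ∩ ⋂ m, OO B j m := by
    have : Complex.measurableEquivRealProd.symm (x, y) = (x : ℂ) + (y : ℂ) * Complex.I := by
      rw [← Complex.mk_eq_add_mul_I]; rfl
    rw [← this]; exact hx
  intro hcon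
  obtain ⟨δ, hδ, hr⟩ := hcon hx1.1
  obtain ⟨m, hm⟩ := exists_nat_one_div_lt hδ
  obtain ⟨r, a, ⟨h0, h1, h2⟩, h3⟩ := mem_iInter.1 hx1.2 m
  obtain ⟨t, ht, ht2⟩ := hr r h0 (h1.trans hm) a h2
  refine h3 t ht ?_
  have : ((x : ℂ) + (y : ℂ) * Complex.I + (t : ℂ)) = (((x + t : ℝ) : ℂ) + (y : ℂ) * Complex.I) := by
    push_cast; ring
  rw [this]
  exact ht2

theorem main : Q137.GL.TaskDensX := by
  intro hD B j hB
  rw [ae_iff]
  refine measure_mono_null ?_ (null hD B j hB)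
  intro z hz
  simp only [mem_setOf_eq, Classical.not_imp] at hz
  refine ⟨hz.1, mem_iInter.2 fun m => ?_⟩
  by_contra hm
  refine hz.2 ⟨1 / ((m : ℝ) + 1), by positivity, fun r h0 h1 a ha => ?_⟩
  have h3 : ∃ t ∈ Icc (a + r / (4 * ((j : ℝ) + 1))) (a + 3 * r / (4 * ((j : ℝ) + 1))), z + (t : ℂ) ∈ B := by
    by_contra hc
    push Not at hc
    exact hm ⟨r, a, ⟨h0, h1, by linarith⟩, hc⟩
  obtain ⟨t, ht, htB⟩ := h3
  have hj : (0 : ℝ) < (j : ℝ) + 1 := by positivity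
  refine ⟨t, ?_, ?_, by simpa using htB⟩
  · have : 0 < r / (4 * ((j : ℝ) + 1)) := by positivity
    linarith [ht.1]
  · have : 3 * r / (4 * ((j : ℝ) + 1)) < r / ((j : ℝ) + 1) := by
      rw [div_lt_div_iff₀ (by positivity) hj]
      nlinarith [mul_pos h0 hj]
    linarith [ht.2]

end Q137.GL.TaskDensX
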