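import Pool.Agent.Q137.GL.Stmts

/-! Blueprint piece for MP_bd3523_gt (helper137's blueprint), proved by helper118. -/

set_option autoImplicit false

namespace Q137.GL.TaskDensY

open MeasureTheory Set Filter Topology
open Q137.GL
open scoped Pointwise

/-- the bad set up to scale `δ` is open -/
theorem isOpen_bad (B : Set ℂ) (hB : IsClosed B) (v : ℂ) (l u : ℝ) :
    IsOpen {z : ℂ | ∀ t ∈ Icc l u, z + (t : ℂ) * v ∉ B} := by
  have hc : IsCompact ((fun t : ℝ => -((t : ℂ) * v)) '' Icc l u) :=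
    isCompact_Icc.image (by fun_prop)
  have hcl : IsClosed (B + (fun t : ℝ => -((t : ℂ) * v)) '' Icc l u) :=
    hB.add_right_of_isCompact hc
  have : {z : ℂ | ∀ t ∈ Icc l u, z + (t : ℂ) * v ∉ B} =
      (B + (fun t : ℝ => -((t : ℂ) * v)) '' Icc l u)ᶜ := by
    ext z
    simp only [mem_setOf_eq, mem_compl_iff, Set.mem_add, not_exists, not_and]
    constructor
    · rintro h b hb w ⟨t, ht, rfl⟩ hz
      apply h t ht
      rw [← hz]
      simpa using hb
    · intro h t ht hz
      exact h _ hz _ ⟨t, ht, rfl⟩ (by ring)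
  rw [this]
  exact hcl.isOpen_compl

/-- the bad points -/
def Bad (B : Set ℂ) (v : ℂ) (j : ℕ) (δ : ℝ) : Set ℂ :=
  ⋃ (r : ℝ) (_ : 0 < r ∧ r < δ) (a : ℝ) (_ : |a| < 3 * r),
    {z : ℂ | ∀ t ∈ Icc (a + r / (4 * (j + 1))) (a + 3 * r / (4 * (j + 1))), z + (t : ℂ) * v ∉ B}

theorem isOpen_Bad (B : Set ℂ) (hB : IsClosed B) (v : ℂ) (j : ℕ) (δ : ℝ) : IsOpen (Bad B v j δ) := by
  unfold Bad
  refine isOpen_iUnion fun r => isOpen_iUnion fun _ => isOpen_iUnion fun a => isOpen_iUnion fun _ => ?_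
  exact isOpen_bad B hB v _ _

theorem main : TaskDensY := by
  intro h1 B j hB
  set S : Set ℂ := B ∩ ⋂ n : ℕ, Bad B Complex.I j (1 / ((n : ℝ) + 1)) with hS
  have hSm : MeasurableSet S :=
    hB.measurableSet.inter (MeasurableSet.iInter fun n => (isOpen_Bad B hB _ j _).measurableSet)
  have hnull : volume S = 0 := by
    have hmp := Complex.volume_preserving_equiv_real_prod.symm
    have e1 : volume S = volume (Complex.measurableEquivRealProd.symm ⁻¹' S) :=
      (hmp.measure_preimage hSm.nullMeasurableSet).symm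
    rw [e1]
    have hm2 : MeasurableSet (Complex.measurableEquivRealProd.symm ⁻¹' S) :=
      Complex.measurableEquivRealProd.symm.measurable hSm
    rw [Measure.volume_eq_prod, Measure.measure_prod_null hm2]
    refine Eventually.of_forall fun x => ?_
    have hBx : IsClosed {y : ℝ | (x : ℂ) + y * Complex.I ∈ B} := by
      apply hB.preimage
      fun_prop
    have h2 := h1 {y : ℝ | (x : ℂ) + y * Complex.I ∈ B} j hBx
    show volume _ = 0
    have h3 : volume {y : ℝ | ¬ (y ∈ {y : ℝ | (x : ℂ) + y * Complex.I ∈ B} → ∃ δ > 0, ∀ r : ℝ, 0 < r → r < δ → ∀ a : ℝ, |a| < 3 * r →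
      ∃ t ∈ Icc (a + r / (4 * (j + 1))) (a + 3 * r / (4 * (j + 1))), y + t ∈ {y : ℝ | (x : ℂ) + y * Complex.I ∈ B})} = 0 := h2
    refine measure_mono_null ?_ h3
    intro y hy
    have hy' : (x : ℂ) + y * Complex.I ∈ S := by
      have : Complex.measurableEquivRealProd.symm (x, y) = (x : ℂ) + y * Complex.I := by
        apply Complex.ext <;> simp [Complex.measurableEquivRealProd]
      have h5 : Complex.measurableEquivRealProd.symm (x, y) ∈ S := hy
      rwa [this] at h5
    intro hcon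
    obtain ⟨δ, hδ, H⟩ := hcon hy'.1
    obtain ⟨n, hn⟩ := exists_nat_one_div_lt hδ
    have h6 := mem_iInter.1 hy'.2 n
    simp only [Bad, mem_iUnion, mem_setOf_eq] at h6
    obtain ⟨r, hr, a, ha, hh⟩ := h6
    obtain ⟨t, ht, htB⟩ := H r hr.1 (hr.2.trans hn) a ha
    apply hh t ht
    have : ((x : ℂ) + y * Complex.I) + (t : ℂ) * Complex.I = (x : ℂ) + ((y + t : ℝ) : ℂ) * Complex.I := by
      push_cast; ring
    rw [this]
    exact htB
  have hae : ∀ᵐ z : ℂ, z ∉ S := by
    rw [ae_iff]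
    simpa using hnull
  filter_upwards [hae] with z hz hzB
  have : ∃ n : ℕ, z ∉ Bad B Complex.I j (1 / ((n : ℝ) + 1)) := by
    by_contra hcon
    push Not at hcon
    exact hz ⟨hzB, mem_iInter.2 hcon⟩
  obtain ⟨n, hn⟩ := this
  refine ⟨1 / ((n : ℝ) + 1), by positivity, ?_⟩
  intro r hr hrδ a ha
  simp only [Bad, mem_iUnion, mem_setOf_eq, not_exists] at hn
  have h7 := hn r ⟨hr, hrδ⟩ a (by linarith)
  push Not at h7
  obtain ⟨t, ht, htB⟩ := h7
  have hj : (0 : ℝ) < (j : ℝ) + 1 := by positivity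
  refine ⟨t, ?_, ?_, htB⟩
  · have : 0 < r / (4 * ((j : ℝ) + 1)) := by positivity
    linarith [ht.1]
  · have h8 : 3 * r / (4 * ((j : ℝ) + 1)) < r / ((j : ℝ) + 1) := by
      rw [div_lt_div_iff₀ (by positivity) hj]
      nlinarith [mul_pos hr hj]
    linarith [ht.2]

end Q137.GL.TaskDensY
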