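import Pool.Agent.Q137.GL.Stmts2

/-! Continuous extension from a closed ball. -/

set_option autoImplicit false

namespace Q137.GL.TaskExt

open MeasureTheory Set Filter Topology

theorem main : Q137.GL.TaskExt := by
  intro F c ρ _ hF
  obtain ⟨g, hg⟩ := ContinuousMap.exists_restrict_eq (Y := ℂ) Metric.isClosed_closedBall
    (⟨(Metric.closedBall c ρ).domRestrict F, hF.domRestrict⟩ : C(Metric.closedBall c ρ, ℂ))
  refine ⟨g, g.continuous, fun z hz => ?_⟩
  have := DFunLike.congr_fun hg ⟨z, hz⟩
  exact this

end Q137.GL.TaskExt
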