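import Pool.Agent.Q137.GL.Stmts

set_option autoImplicit false

namespace Q137.GL.TaskGlue

open MeasureTheory Set Filter Topology

/-- a sequence with `‖p n - p m‖ ≤ 1/(n+1) + 1/(m+1)` converges, with rate `1/(n+1)` -/
lemma lim_of_bound (p : ℕ → ℂ)
    (h : ∀ n m : ℕ, ‖p n - p m‖ ≤ 1 / ((n : ℝ) + 1) + 1 / ((m : ℝ) + 1)) :
    ∃ P : ℂ, ∀ n : ℕ, ‖p n - P‖ ≤ 1 / ((n : ℝ) + 1) := by
  have h0 : Tendsto (fun n : ℕ => 1 / ((n : ℝ) + 1)) atTop (𝓝 0) :=
    tendsto_one_div_add_atTop_nhds_zero_nat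
  have hc : CauchySeq p := by
    refine cauchySeq_of_le_tendsto_0 (fun N : ℕ => 1 / ((N : ℝ) + 1) + 1 / ((N : ℝ) + 1)) ?_ ?_
    · intro n m N hn hm
      rw [dist_eq_norm]
      refine (h n m).trans ?_
      have hN : (0 : ℝ) < (N : ℝ) + 1 := by positivity
      have h1 : 1 / ((n : ℝ) + 1) ≤ 1 / ((N : ℝ) + 1) := by
        apply one_div_le_one_div_of_le hN
        have : (N : ℝ) ≤ n := by exact_mod_cast hn
        linarith
      have h2 : 1 / ((m : ℝ) + 1) ≤ 1 / ((N : ℝ) + 1) := by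
        apply one_div_le_one_div_of_le hN
        have : (N : ℝ) ≤ m := by exact_mod_cast hm
        linarith
      linarith
    · simpa using h0.add h0
  obtain ⟨P, hP⟩ := cauchySeq_tendsto_of_complete hc
  refine ⟨P, fun n => ?_⟩
  have h1 : Tendsto (fun m : ℕ => ‖p n - p m‖) atTop (𝓝 ‖p n - P‖) :=
    (tendsto_const_nhds.sub hP).norm
  have h2 : Tendsto (fun m : ℕ => 1 / ((n : ℝ) + 1) + 1 / ((m : ℝ) + 1)) atTop
      (𝓝 (1 / ((n : ℝ) + 1) + 0)) := tendsto_const_nhds.add h0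
  have h3 := le_of_tendsto_of_tendsto' h1 h2 (fun m => h n m)
  simpa using h3

theorem main : Q137.GL.TaskGlue := by
  intro F z₀ H
  have H' : ∀ n : ℕ, ∃ (p q : ℂ) (ρ : ℝ), 0 < ρ ∧ ∀ x y : ℝ, |x| ≤ ρ → |y| ≤ ρ →
      ‖F (z₀ + x + y * Complex.I) - F z₀ - x * p - y * q‖ ≤
        1 / ((n : ℝ) + 1) * (|x| + |y|) := fun n => H (1 / ((n : ℝ) + 1)) (by positivity)
  choose p q ρ hρ h using H'
  have hp : ∀ n m : ℕ, ‖p n - p m‖ ≤ 1 / ((n : ℝ) + 1) + 1 / ((m : ℝ) + 1) := by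
    intro n m
    obtain ⟨r, hr⟩ : ∃ r, r = min (ρ n) (ρ m) := ⟨_, rfl⟩
    have hr0 : 0 < r := by rw [hr]; exact lt_min (hρ n) (hρ m)
    have h1 := h n r 0 (by rw [abs_of_pos hr0, hr]; exact min_le_left _ _)
      (by rw [abs_zero]; exact (hρ n).le)
    have h2 := h m r 0 (by rw [abs_of_pos hr0, hr]; exact min_le_right _ _)
      (by rw [abs_zero]; exact (hρ m).le)
    rw [abs_zero, add_zero, abs_of_pos hr0] at h1 h2
    have h3 : (r : ℂ) * (p n - p m) =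
        (F (z₀ + r + ((0 : ℝ) : ℂ) * Complex.I) - F z₀ - r * p m - ((0 : ℝ) : ℂ) * q m) -
        (F (z₀ + r + ((0 : ℝ) : ℂ) * Complex.I) - F z₀ - r * p n - ((0 : ℝ) : ℂ) * q n) := by
      push_cast
      ring
    have h4 : r * ‖p n - p m‖ ≤ 1 / ((m : ℝ) + 1) * r + 1 / ((n : ℝ) + 1) * r := by
      have h5 : ‖(r : ℂ) * (p n - p m)‖ = r * ‖p n - p m‖ := by
        rw [norm_mul, Complex.norm_real, Real.norm_eq_abs, abs_of_pos hr0]
      rw [← h5, h3]
      exact (norm_sub_le _ _).trans (add_le_add h2 h1)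
    have h6 : r * ‖p n - p m‖ ≤ r * (1 / ((n : ℝ) + 1) + 1 / ((m : ℝ) + 1)) := by linarith
    exact le_of_mul_le_mul_left h6 hr0
  have hq : ∀ n m : ℕ, ‖q n - q m‖ ≤ 1 / ((n : ℝ) + 1) + 1 / ((m : ℝ) + 1) := by
    intro n m
    obtain ⟨r, hr⟩ : ∃ r, r = min (ρ n) (ρ m) := ⟨_, rfl⟩
    have hr0 : 0 < r := by rw [hr]; exact lt_min (hρ n) (hρ m)
    have h1 := h n 0 r (by rw [abs_zero]; exact (hρ n).le)
      (by rw [abs_of_pos hr0, hr]; exact min_le_left _ _)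
    have h2 := h m 0 r (by rw [abs_zero]; exact (hρ m).le)
      (by rw [abs_of_pos hr0, hr]; exact min_le_right _ _)
    rw [abs_zero, zero_add, abs_of_pos hr0] at h1 h2
    have h3 : (r : ℂ) * (q n - q m) =
        (F (z₀ + ((0 : ℝ) : ℂ) + r * Complex.I) - F z₀ - ((0 : ℝ) : ℂ) * p m - r * q m) -
        (F (z₀ + ((0 : ℝ) : ℂ) + r * Complex.I) - F z₀ - ((0 : ℝ) : ℂ) * p n - r * q n) := by
      push_cast
      ring
    have h4 : r * ‖q n - q m‖ ≤ 1 / ((m : ℝ) + 1) * r + 1 / ((n : ℝ) + 1) * r := by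
      have h5 : ‖(r : ℂ) * (q n - q m)‖ = r * ‖q n - q m‖ := by
        rw [norm_mul, Complex.norm_real, Real.norm_eq_abs, abs_of_pos hr0]
      rw [← h5, h3]
      exact (norm_sub_le _ _).trans (add_le_add h2 h1)
    have h6 : r * ‖q n - q m‖ ≤ r * (1 / ((n : ℝ) + 1) + 1 / ((m : ℝ) + 1)) := by linarith
    exact le_of_mul_le_mul_left h6 hr0
  obtain ⟨P, hP⟩ := lim_of_bound p hp
  obtain ⟨Q, hQ⟩ := lim_of_bound q hq
  have hd : HasFDerivAt F ((Complex.reCLM.smulRight P) + (Complex.imCLM.smulRight Q)) z₀ := by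
    rw [hasFDerivAt_iff_isLittleO_nhds_zero, Asymptotics.isLittleO_iff]
    intro c hc
    obtain ⟨n, hn⟩ := exists_nat_one_div_lt (show (0 : ℝ) < c / 4 by positivity)
    filter_upwards [Metric.ball_mem_nhds (0 : ℂ) (hρ n)] with w hw
    rw [mem_ball_zero_iff] at hw
    have hre := Complex.abs_re_le_norm w
    have him := Complex.abs_im_le_norm w
    have h1 := h n w.re w.im (hre.trans hw.le) (him.trans hw.le)
    have h2 : z₀ + (w.re : ℂ) + (w.im : ℂ) * Complex.I = z₀ + w := by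
      rw [add_assoc, Complex.re_add_im]
    rw [h2] at h1
    have h3 : F (z₀ + w) - F z₀ -
        ((Complex.reCLM.smulRight P) + (Complex.imCLM.smulRight Q)) w =
        (F (z₀ + w) - F z₀ - w.re * p n - w.im * q n) +
          ((w.re : ℂ) * (p n - P) + (w.im : ℂ) * (q n - Q)) := by
      simp only [ContinuousLinearMap.add_apply, ContinuousLinearMap.smulRight_apply,
        Complex.reCLM_apply, Complex.imCLM_apply, Complex.real_smul]
      ring
    rw [h3]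
    have h4 : ‖(w.re : ℂ) * (p n - P)‖ ≤ ‖w‖ * (1 / ((n : ℝ) + 1)) := by
      rw [norm_mul, Complex.norm_real, Real.norm_eq_abs]
      exact mul_le_mul hre (hP n) (norm_nonneg _) (norm_nonneg _)
    have h5 : ‖(w.im : ℂ) * (q n - Q)‖ ≤ ‖w‖ * (1 / ((n : ℝ) + 1)) := by
      rw [norm_mul, Complex.norm_real, Real.norm_eq_abs]
      exact mul_le_mul him (hQ n) (norm_nonneg _) (norm_nonneg _)
    have h6 : 1 / ((n : ℝ) + 1) * (|w.re| + |w.im|) ≤ 1 / ((n : ℝ) + 1) * (2 * ‖w‖) := by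
      apply mul_le_mul_of_nonneg_left _ (by positivity)
      linarith
    have h7 := (norm_add_le (F (z₀ + w) - F z₀ - w.re * p n - w.im * q n)
      ((w.re : ℂ) * (p n - P) + (w.im : ℂ) * (q n - Q)))
    have h8 := norm_add_le ((w.re : ℂ) * (p n - P)) ((w.im : ℂ) * (q n - Q))
    have h9 : 1 / ((n : ℝ) + 1) * ‖w‖ ≤ c / 4 * ‖w‖ :=
      mul_le_mul_of_nonneg_right hn.le (norm_nonneg _)
    nlinarith [norm_nonneg w]
  exact hd.differentiableAt

end Q137.GL.TaskGlue
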