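import Pool.Agent.Q137.GL.Stmts

set_option autoImplicit false

namespace Q137.GL.TaskGraph

open MeasureTheory Set Filter Topology
open Q137.HD (IsC1Curve)

theorem main : Q137.GL.TaskGraph := by
  rintro C ⟨γ, hγ, hper, hne, hinj, rfl⟩ p ⟨t₀, rfl⟩
  have hper' : Function.Periodic γ 1 := hper
  have hshift : ∀ (n : ℤ) (t : ℝ), γ (t - n) = γ t := by
    intro n t
    have := hper'.sub_int_mul_eq (x := t) n
    rwa [mul_one] at this
  -- injectivity modulo 1
  have hinj' : ∀ a b : ℝ, γ a = γ b → ∃ n : ℤ, a = b + n := by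
    intro a b hab
    have ha : γ (Int.fract a) = γ a := by
      rw [← Int.self_sub_floor]; exact hshift _ _
    have hb : γ (Int.fract b) = γ b := by
      rw [← Int.self_sub_floor]; exact hshift _ _
    have h := hinj ⟨Int.fract_nonneg a, Int.fract_lt_one a⟩ ⟨Int.fract_nonneg b, Int.fract_lt_one b⟩
      (by rw [ha, hb, hab])
    refine ⟨⌊a⌋ - ⌊b⌋, ?_⟩
    have h1 := Int.floor_add_fract a
    have h2 := Int.floor_add_fract b
    push_cast
    linarith
  set u : ℂ := deriv γ t₀ with hu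
  set φ : ℝ → ℝ := fun t => inner ℝ u (γ t) with hφ
  have hφc : ContDiff ℝ 1 φ := contDiff_const.inner ℝ hγ
  have hγd : ∀ t, DifferentiableAt ℝ γ t := fun t => (hγ.differentiable (by norm_num)).differentiableAt
  have hφd : HasDerivAt φ (inner ℝ u u) t₀ := by
    have h := ((innerSL ℝ u).hasFDerivAt (x := γ t₀)).comp_hasDerivAt t₀ (hγd t₀).hasDerivAt
    exact h
  have hc : (inner ℝ u u : ℝ) ≠ 0 := by
    rw [real_inner_self_eq_norm_sq]
    have : u ≠ 0 := hne t₀
    positivity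
  have hfd := hφd.hasFDerivAt_equiv hc
  have hcd : ContDiffAt ℝ 1 φ t₀ := hφc.contDiffAt
  set ψ : ℝ → ℝ := hcd.localInverse hfd (by norm_num) with hψ
  have hleft : ∀ᶠ t in 𝓝 t₀, ψ (φ t) = t :=
    (hcd.hasStrictFDerivAt' hfd (by norm_num)).eventually_left_inverse
  have hψc : ContDiffAt ℝ 1 ψ (φ t₀) := hcd.to_localInverse hfd (by norm_num)
  have hψd : ∀ᶠ s in 𝓝 (φ t₀), DifferentiableAt ℝ ψ s := by
    filter_upwards [hψc.eventually (by norm_num)] with s hs
    exact hs.differentiableAt (by norm_num)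
  have hψd' : ∀ᶠ t in 𝓝 t₀, DifferentiableAt ℝ ψ (φ t) :=
    hφc.continuous.continuousAt.eventually hψd
  obtain ⟨δ₀, hδ₀, hball⟩ := Metric.eventually_nhds_iff.1 (hleft.and hψd')
  set δ : ℝ := min δ₀ (1 / 4) with hδ
  have hδpos : 0 < δ := lt_min hδ₀ (by norm_num)
  have hδle : δ ≤ 1 / 4 := min_le_right _ _
  have hK : IsCompact (γ '' Icc (t₀ + δ) (t₀ + 1 - δ)) := isCompact_Icc.image hγ.continuous
  refine ⟨u, (γ '' Icc (t₀ + δ) (t₀ + 1 - δ))ᶜ, γ ∘ ψ, hK.isClosed.isOpen_compl, ?_, ?_⟩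
  · rintro ⟨a, ha, hap⟩
    obtain ⟨n, hn⟩ := hinj' a t₀ hap
    have h1 : (0 : ℝ) < n := by have := ha.1; linarith
    have h2 : (n : ℝ) < 1 := by have := ha.2; linarith
    have h3 : (0 : ℤ) < n := by exact_mod_cast h1
    have h4 : n < (1 : ℤ) := by exact_mod_cast h2
    omega
  · rintro q ⟨⟨s, rfl⟩, hq⟩
    -- a representative close to `t₀`
    have hrep : ∃ t : ℝ, |t - t₀| < δ ∧ γ t = γ s := by
      set s' : ℝ := s - ⌊s - t₀⌋ with hs'
      have e1 : γ s' = γ s := hshift _ _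
      have e2 : s' - t₀ = Int.fract (s - t₀) := by
        rw [← Int.self_sub_floor, hs']; ring
      have e3 : 0 ≤ s' - t₀ := by rw [e2]; exact Int.fract_nonneg _
      have e4 : s' - t₀ < 1 := by rw [e2]; exact Int.fract_lt_one _
      by_cases h1 : s' - t₀ < δ
      · exact ⟨s', by rw [abs_of_nonneg e3]; exact h1, e1⟩
      · have h2 : t₀ + 1 - δ < s' := by
          by_contra h3
          exact hq ⟨s', ⟨by linarith, by linarith⟩, e1⟩
        refine ⟨s' - 1, ?_, ?_⟩
        · rw [abs_of_nonpos (by linarith)]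
          linarith
        · have := hshift 1 s'
          rw [Int.cast_one] at this
          rw [this, e1]
    obtain ⟨t, ht, hts⟩ := hrep
    have hb := hball (y := t) (by rw [Real.dist_eq]; exact lt_of_lt_of_le ht (min_le_left _ _))
    have e : (inner ℝ u (γ s) : ℝ) = φ t := by rw [hφ, ← hts]
    rw [e]
    refine ⟨?_, ?_⟩
    · show γ (ψ (φ t)) = γ s
      rw [hb.1, hts]
    · exact (hγd _).comp _ hb.2

end Q137.GL.TaskGraph
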