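import Pool.Agent.Q137.GL.Stmts2
set_option autoImplicit false

namespace Q137.GL.TaskHorL
open Q137.GL MeasureTheory Set Filter Topology
open Q137.HD (IsC1Curve)

theorem main : Q137.GL.TaskHorL := by
  intro hOn hSc F W hF y
  have key : ∀ x₀ : ℝ, (x₀ + y * Complex.I : ℂ) ∈ W → ∃ r > 0, ∀ᵐ t : ℝ,
      t ∈ Ioo (x₀ - r) (x₀ + r) → DifferentiableAt ℝ (fun x : ℝ => F (x + y * Complex.I)) t := by
    intro x₀ hx₀
    obtain ⟨r, hr, C, hCW, hC, hCs⟩ := hSc W _ hF.op hx₀
    have hle : x₀ - r ≤ x₀ + r := by linarith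
    have hmem : ∀ t ∈ Icc (x₀ - r) (x₀ + r), ((t : ℂ) + y * Complex.I) ∈ C := by
      intro t ht
      have h1 := hCs (t - x₀) (by rw [abs_le]; constructor <;> linarith [ht.1, ht.2])
      convert h1 using 1
      push_cast
      ring
    set G : ℝ → ℂ := fun t => F (((projIcc (x₀ - r) (x₀ + r) hle t : ℝ) : ℂ) + y * Complex.I) with hG
    have hGeq : ∀ t ∈ Icc (x₀ - r) (x₀ + r), G t = F ((t : ℂ) + y * Complex.I) := by
      intro t ht
      simp only [hG]
      rw [projIcc_of_mem hle ht]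
    have hGc : Continuous G := by
      apply hF.cont.comp_continuous
      · have h1 : Continuous (fun t : ℝ => ((projIcc (x₀ - r) (x₀ + r) hle t : ℝ) : ℂ)) :=
          Complex.continuous_ofReal.comp (continuous_subtype_val.comp continuous_projIcc)
        exact h1.add continuous_const
      · intro t
        exact hCW (hmem _ (projIcc (x₀ - r) (x₀ + r) hle t).2)
    have hGi : InjOn G (Icc (x₀ - r) (x₀ + r)) := by
      intro s hs t ht hst
      rw [hGeq s hs, hGeq t ht] at hst
      have h1 := hF.inj (hCW (hmem s hs)) (hCW (hmem t ht)) hst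
      have h2 : (s : ℂ) = t := add_right_cancel h1
      exact_mod_cast h2
    refine ⟨r, hr, ?_⟩
    have h1 := hOn (F '' C) (hF.pres C hCW hC) G (x₀ - r) (x₀ + r) hGc (by linarith) hGi (by
      intro t ht
      rw [hGeq t ht]
      exact ⟨_, hmem t ht, rfl⟩)
    filter_upwards [h1] with t ht htI
    have h2 : G =ᶠ[𝓝 t] (fun x : ℝ => F (x + y * Complex.I)) := by
      filter_upwards [Ioo_mem_nhds htI.1 htI.2] with s hs
      exact hGeq s (Ioo_subset_Icc_self hs)
    exact h2.differentiableAt_iff.1 (ht htI)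
  rw [ae_iff]
  apply measure_null_of_locally_null
  intro x hx
  simp only [mem_setOf_eq, Classical.not_imp] at hx
  obtain ⟨r, hr, h⟩ := key x hx.1
  rw [ae_iff] at h
  refine ⟨{a | ¬ (a ∈ Ioo (x - r) (x + r) →
    DifferentiableAt ℝ (fun x : ℝ => F (x + y * Complex.I)) a)}, ?_, h⟩
  have h3 : Ioo (x - r) (x + r) ∈ 𝓝 x := Ioo_mem_nhds (by linarith) (by linarith)
  filter_upwards [self_mem_nhdsWithin, mem_nhdsWithin_of_mem_nhds h3] with t ht1 ht2
  simp only [mem_setOf_eq, Classical.not_imp] at ht1 ⊢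
  exact ⟨ht2, ht1.2⟩

end Q137.GL.TaskHorL
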