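import Pool.Agent.Q137.GL.Stmts2

set_option autoImplicit false

namespace Q137.GL.TaskLoc2

open MeasureTheory Set Filter Topology
open scoped Manifold ContDiff
open Q137.HD (IsC1Curve)

theorem main : TaskLoc2 := by
  intro hIn hOut S _ _ _ φ ψ hφ hψ f hf
  have hc1 : ContinuousOn (fun z => f (φ.symm z)) φ.target :=
    f.continuous.comp_continuousOn φ.symm.continuousOn
  have himg : ∀ C : Set ℂ, (fun z => ψ (f (φ.symm z))) '' C = ψ '' (f '' (φ.symm '' C)) := by
    intro C
    simp only [Set.image_image]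
  refine ⟨?_, ?_, ?_, ?_, ?_⟩
  · exact hc1.isOpen_inter_preimage φ.open_target ψ.open_source
  · intro z hz
    have h1 : ContinuousAt ψ (f (φ.symm z)) := ψ.continuousAt hz.2
    have h2 : ContinuousWithinAt (fun z => f (φ.symm z)) (φ.target ∩ {z | f (φ.symm z) ∈ ψ.source}) z :=
      (hc1 z hz.1).mono Set.inter_subset_left
    exact ContinuousAt.comp_continuousWithinAt (f := fun z => f (φ.symm z)) (g := ψ) h1 h2
  · intro z hz w hw h
    have h1 : f (φ.symm z) = f (φ.symm w) := ψ.injOn hz.2 hw.2 h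
    have h2 : φ.symm z = φ.symm w := f.injective h1
    exact φ.symm.injOn hz.1 hw.1 h2
  · intro V hV hVo
    rw [himg]
    have h1 : IsOpen (φ.symm '' V) := φ.isOpen_image_symm_of_subset_target hVo (fun z hz => (hV hz).1)
    have h2 : IsOpen (f '' (φ.symm '' V)) := f.isOpenMap _ h1
    refine ψ.isOpen_image_of_subset_source h2 ?_
    rintro _ ⟨_, ⟨z, hz, rfl⟩, rfl⟩
    exact (hV hz).2
  · intro C hC hCc
    rw [himg]
    have h1 := hIn S φ hφ C (fun z hz => (hC hz).1) hCc
    have h2 := hf _ h1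
    refine hOut S ψ hψ _ ?_ h2
    rintro _ ⟨_, ⟨z, hz, rfl⟩, rfl⟩
    exact (hC hz).2

end Q137.GL.TaskLoc2
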