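import Pool.Agent.Q137.GL.Stmts2

set_option autoImplicit false

namespace Q137.GL.TaskMDiff

open Set Filter Topology
open scoped Manifold ContDiff

theorem main : Q137.GL.TaskMDiff := by
  intro S _ _ _ φ ψ hφ hψ f q hq hfq hd
  haveI : IsManifold 𝓘(ℝ, ℂ) 1 S := IsManifold.of_le (n := ∞) (by norm_num)
  have hφ' : φ ∈ IsManifold.maximalAtlas 𝓘(ℝ, ℂ) 1 S :=
    IsManifold.maximalAtlas_subset_of_le (by norm_num) hφ
  have hψ' : ψ ∈ IsManifold.maximalAtlas 𝓘(ℝ, ℂ) 1 S :=
    IsManifold.maximalAtlas_subset_of_le (by norm_num) hψ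
  rw [← mdifferentiableWithinAt_univ]
  rw [mdifferentiableWithinAt_iff_of_mem_maximalAtlas hφ' hψ' hq hfq]
  refine ⟨f.continuous.continuousWithinAt, ?_⟩
  simp only [preimage_univ, univ_inter, mfld_simps]
  refine DifferentiableAt.differentiableWithinAt ?_
  exact hd

end Q137.GL.TaskMDiff
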