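import Pool.Agent.Q137.GL.Stmts

namespace Q137.GL.TaskOnCurve

open MeasureTheory Set Filter Topology

theorem mono_or_anti_ae (φ : ℝ → ℝ) (l r : ℝ)
    (h : StrictMonoOn φ (Ioo l r) ∨ StrictAntiOn φ (Ioo l r)) :
    ∀ᵐ x : ℝ, x ∈ Ioo l r → DifferentiableAt ℝ φ x := by
  rcases h with h | h
  · filter_upwards [h.monotoneOn.ae_differentiableWithinAt_of_mem] with x hx hxm
    exact (hx hxm).differentiableAt (isOpen_Ioo.mem_nhds hxm)
  · have hn : MonotoneOn (fun x => - φ x) (Ioo l r) := by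
      intro x hx y hy hxy
      exact neg_le_neg (h.antitoneOn hx hy hxy)
    filter_upwards [hn.ae_differentiableWithinAt_of_mem] with x hx hxm
    have h1 := ((hx hxm).differentiableAt (isOpen_Ioo.mem_nhds hxm)).neg
    have h2 : (-fun x => - φ x) = φ := by
      funext y
      simp
    have h3 : (fun y => - (- φ y)) = φ := by
      funext y
      simp
    first
      | (rw [h2] at h1; exact h1)
      | (rw [h3] at h1; exact h1)

theorem main : Q137.GL.TaskOnCurve := by
  intro hG C hC G a c hGc hac hinj hmem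
  have hS : volume {t : ℝ | t ∈ Ioo a c ∧ ¬ DifferentiableAt ℝ G t} = 0 := by
    apply measure_null_of_locally_null
    rintro t₀ ⟨ht0, -⟩
    obtain ⟨u, N, T, hN, hpN, hT⟩ := hG C hC (G t₀) (hmem t₀ (Ioo_subset_Icc_self ht0))
    have hO : Ioo a c ∩ G ⁻¹' N ∈ 𝓝 t₀ :=
      inter_mem (isOpen_Ioo.mem_nhds ht0) ((hN.preimage hGc).mem_nhds hpN)
    obtain ⟨l, r, hlr, hsub⟩ := mem_nhds_iff_exists_Ioo_subset.1 hO
    have hin : ∀ t ∈ Ioo l r, t ∈ Icc a c ∧ G t ∈ C ∩ N := by
      intro t ht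
      have h1 := hsub ht
      exact ⟨Ioo_subset_Icc_self h1.1, hmem t (Ioo_subset_Icc_self h1.1), h1.2⟩
    have hφc : ContinuousOn (fun t => inner ℝ u (G t)) (Ioo l r) :=
      (continuous_const.inner hGc).continuousOn
    have hφi : InjOn (fun t => inner ℝ u (G t)) (Ioo l r) := by
      intro s hs t ht hst
      have e1 := (hT (G s) (hin s hs).2).1
      have e2 := (hT (G t) (hin t ht).2).1
      have hst' : inner ℝ u (G s) = inner ℝ u (G t) := hst
      rw [hst'] at e1
      exact hinj (hin s hs).1 (hin t ht).1 (e1.symm.trans e2)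
    have hae := mono_or_anti_ae _ l r
      (hφc.strictMonoOn_of_injOn_Ioo (by linarith [hlr.1, hlr.2]) hφi)
    have hd : ∀ᵐ x : ℝ, x ∈ Ioo l r → DifferentiableAt ℝ G x := by
      filter_upwards [hae] with x hx hxm
      have h1 := hx hxm
      have h2 := (hT (G x) (hin x hxm).2).2
      have h3 : DifferentiableAt ℝ (fun t => T (inner ℝ u (G t))) x :=
        DifferentiableAt.comp x h2 h1
      refine h3.congr_of_eventuallyEq ?_
      filter_upwards [isOpen_Ioo.mem_nhds hxm] with t ht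
      exact ((hT (G t) (hin t ht).2).1).symm
    refine ⟨{t : ℝ | t ∈ Ioo a c ∧ ¬ DifferentiableAt ℝ G t} ∩ Ioo l r,
      inter_mem_nhdsWithin _ (isOpen_Ioo.mem_nhds hlr), ?_⟩
    refine measure_mono_null ?_ (ae_iff.1 hd)
    rintro x ⟨⟨hx1, hx2⟩, hx3⟩
    simp only [mem_setOf_eq, Classical.not_imp]
    exact ⟨hx3, hx2⟩
  rw [ae_iff]
  refine measure_mono_null ?_ hS
  intro t ht
  simp only [mem_setOf_eq, Classical.not_imp] at ht
  exact ht

end Q137.GL.TaskOnCurve
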