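import Pool.Agent.Q137.GL.Stmts2

set_option autoImplicit false

namespace Q137.GL.TaskScaled

open MeasureTheory Set Filter Topology
open Q137.HD (IsC1Curve)

theorem main : Q137.GL.TaskScaled := by
  intro hS W c hW hc
  obtain ⟨C, hC, hx⟩ := hS 0
  obtain ⟨γ, h1, h2, h3, h4, h5⟩ := hC
  have hcont : Continuous γ := h1.continuous
  have hb : Bornology.IsBounded C := by
    have hr : C = γ '' Icc 0 1 := by
      rw [h5]
      apply Subset.antisymm
      · rintro _ ⟨t, rfl⟩
        refine ⟨Int.fract t, ⟨Int.fract_nonneg t, (Int.fract_lt_one t).le⟩, ?_⟩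
        have hp : Function.Periodic γ 1 := h2
        have := hp.sub_int_mul_eq (x := t) ⌊t⌋
        rw [mul_one] at this
        exact this
      · rintro _ ⟨t, -, rfl⟩
        exact ⟨t, rfl⟩
    rw [hr]
    exact (isCompact_Icc.image hcont).isBounded
  obtain ⟨R, hR0, hR⟩ := hb.exists_pos_norm_le
  obtain ⟨δ, hδ, hball⟩ := Metric.isOpen_iff.1 hW c hc
  set s : ℝ := δ / (2 * R) with hs
  have hs0 : 0 < s := by positivity
  have hsR : s * R = δ / 2 := by rw [hs]; field_simp
  refine ⟨s / 2, by positivity, (fun z : ℂ => c + (s : ℂ) * z) '' C, ?_, ?_, ?_⟩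
  · rintro _ ⟨z, hz, rfl⟩
    apply hball
    rw [Metric.mem_ball, dist_eq_norm, add_sub_cancel_left, norm_mul, Complex.norm_real,
      Real.norm_eq_abs, abs_of_pos hs0]
    have := mul_le_mul_of_nonneg_left (hR z hz) hs0.le
    rw [hsR] at this
    linarith
  · refine ⟨fun t => c + (s : ℂ) * γ t, ?_, ?_, ?_, ?_, ?_⟩
    · exact contDiff_const.add (contDiff_const.mul h1)
    · intro t
      simp only [h2 t]
    · intro t
      have hd : HasDerivAt γ (deriv γ t) t := (h1.differentiable (by norm_num) t).hasDerivAt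
      have hd2 : HasDerivAt (fun t => c + (s : ℂ) * γ t) ((s : ℂ) * deriv γ t) t :=
        (hd.const_mul (s : ℂ)).const_add c
      rw [hd2.deriv]
      exact mul_ne_zero (by exact_mod_cast hs0.ne') (h3 t)
    · intro x hx y hy hxy
      have : γ x = γ y := by
        have h6 : (s : ℂ) * γ x = (s : ℂ) * γ y := add_left_cancel hxy
        exact mul_left_cancel₀ (by exact_mod_cast hs0.ne') h6
      exact h4 hx hy this
    · rw [h5, ← range_comp]
      rfl
  · intro x hx'
    refine ⟨((x / s : ℝ) : ℂ), ?_, ?_⟩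
    · have := hx (x / s) (by
        rw [abs_div, abs_of_pos hs0, div_le_iff₀ hs0]
        linarith)
      simpa using this
    · simp only
      push_cast
      have hne : (s : ℂ) ≠ 0 := by exact_mod_cast hs0.ne'
      rw [mul_div_cancel₀ _ hne]

end Q137.GL.TaskScaled
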