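import Pool.Agent.Q137.GL.Stmts

set_option autoImplicit false

namespace Q137.GL.TaskStadium

open MeasureTheory Set Filter Topology
open Q137.HD (IsC1Curve)
open Q137.GL

theorem max_deriv (x : ℝ) : HasDerivAt (fun x : ℝ => (max 0 x) ^ 2) (2 * max 0 x) x := by
  rcases lt_trichotomy x 0 with h | h | h
  · have h1 : HasDerivAt (fun _ : ℝ => (0 : ℝ)) 0 x := hasDerivAt_const x 0
    rw [max_eq_left h.le, mul_zero]
    refine h1.congr_of_eventuallyEq ?_
    filter_upwards [gt_mem_nhds h] with y hy
    rw [max_eq_left hy.le]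
    norm_num
  · subst h
    rw [max_self, mul_zero, hasDerivAt_iff_isLittleO_nhds_zero]
    simp only [zero_add, max_self, smul_zero, sub_zero]
    rw [Asymptotics.isLittleO_iff]
    intro c hc
    filter_upwards [Metric.ball_mem_nhds (0 : ℝ) hc] with y hy
    rw [Metric.mem_ball, dist_zero_right, Real.norm_eq_abs] at hy
    rw [Real.norm_eq_abs, Real.norm_eq_abs]
    have h1 : max 0 y ≤ |y| := max_le (abs_nonneg y) (le_abs_self y)
    have h2 : 0 ≤ max 0 y := le_max_left _ _
    have h3 : (0 : ℝ) ^ 2 = 0 := by norm_num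
    rw [h3, sub_zero, abs_of_nonneg (by positivity)]
    nlinarith [abs_nonneg y]
  · have h1 : HasDerivAt (fun x : ℝ => x ^ 2) (2 * x) x := by simpa using hasDerivAt_pow 2 x
    rw [max_eq_right h.le]
    refine h1.congr_of_eventuallyEq ?_
    filter_upwards [lt_mem_nhds h] with y hy
    rw [max_eq_right hy.le]

theorem main : TaskStadium := by
  intro c
  set γ : ℝ → ℂ := fun t => c + ((Real.cos (2 * Real.pi * t) : ℝ) : ℂ) +
    (((max 0 (Real.sin (2 * Real.pi * t) + 1 / 2)) ^ 2 : ℝ) : ℂ) * Complex.I with hγ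
  have hlin : ∀ t : ℝ, HasDerivAt (fun t : ℝ => 2 * Real.pi * t) (2 * Real.pi) t := fun t => by
    simpa using (hasDerivAt_id t).const_mul (2 * Real.pi)
  have hder : ∀ t : ℝ, HasDerivAt γ
      (((-Real.sin (2 * Real.pi * t) * (2 * Real.pi) : ℝ) : ℂ) +
        ((2 * max 0 (Real.sin (2 * Real.pi * t) + 1 / 2) * (Real.cos (2 * Real.pi * t) * (2 * Real.pi)) : ℝ) : ℂ) *
          Complex.I) t := by
    intro t
    have h1 : HasDerivAt (fun t : ℝ => Real.cos (2 * Real.pi * t))
        (-Real.sin (2 * Real.pi * t) * (2 * Real.pi)) t := (hlin t).cos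
    have h2 : HasDerivAt (fun t : ℝ => Real.sin (2 * Real.pi * t) + 1 / 2)
        (Real.cos (2 * Real.pi * t) * (2 * Real.pi)) t := (hlin t).sin.add_const _
    have h3 : HasDerivAt (fun t : ℝ => (max 0 (Real.sin (2 * Real.pi * t) + 1 / 2)) ^ 2)
        (2 * max 0 (Real.sin (2 * Real.pi * t) + 1 / 2) * (Real.cos (2 * Real.pi * t) * (2 * Real.pi))) t :=
      HasDerivAt.comp t (max_deriv _) h2
    exact (h1.ofReal_comp.const_add c).add (h3.ofReal_comp.mul_const Complex.I)
  have hderiv : deriv γ = fun t => (((-Real.sin (2 * Real.pi * t) * (2 * Real.pi) : ℝ) : ℂ) +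
        ((2 * max 0 (Real.sin (2 * Real.pi * t) + 1 / 2) * (Real.cos (2 * Real.pi * t) * (2 * Real.pi)) : ℝ) : ℂ) *
          Complex.I) := funext fun t => (hder t).deriv
  refine ⟨range γ, ⟨γ, ?_, ?_, ?_, ?_, rfl⟩, ?_⟩
  · rw [contDiff_one_iff_deriv]
    refine ⟨fun t => (hder t).differentiableAt, ?_⟩
    rw [hderiv]
    have h1 : Continuous fun t : ℝ => max 0 (Real.sin (2 * Real.pi * t) + 1 / 2) := by fun_prop
    fun_prop
  · intro t
    have e : 2 * Real.pi * (t + 1) = 2 * Real.pi * t + 2 * Real.pi := by ring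
    simp only [hγ, e, Real.cos_add_two_pi, Real.sin_add_two_pi]
  · intro t h0
    rw [hderiv] at h0
    have hre := congrArg Complex.re h0
    have him := congrArg Complex.im h0
    simp only [Complex.add_re, Complex.ofReal_re, Complex.mul_re, Complex.I_re, Complex.ofReal_im,
      Complex.I_im, Complex.add_im, Complex.mul_im, Complex.zero_re, Complex.zero_im] at hre him
    have hpi := Real.pi_pos
    have hs : Real.sin (2 * Real.pi * t) = 0 := by
      have : Real.sin (2 * Real.pi * t) * (2 * Real.pi) = 0 := by linarith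
      rcases mul_eq_zero.1 this with h | h
      · exact h
      · linarith
    rw [hs] at him
    have h2 : max (0 : ℝ) (0 + 1 / 2) = 1 / 2 := by norm_num
    rw [h2] at him
    have hc : Real.cos (2 * Real.pi * t) = 0 := by
      have : Real.cos (2 * Real.pi * t) * (2 * Real.pi) = 0 := by linarith
      rcases mul_eq_zero.1 this with h | h
      · exact h
      · linarith
    have := Real.sin_sq_add_cos_sq (2 * Real.pi * t)
    rw [hs, hc] at this
    norm_num at this
  · intro s hs t ht hst
    have hre := congrArg Complex.re hst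
    have him := congrArg Complex.im hst
    simp only [hγ, Complex.add_re, Complex.ofReal_re, Complex.mul_re, Complex.I_re, Complex.ofReal_im,
      Complex.I_im, Complex.add_im, Complex.mul_im] at hre him
    have hcos : Real.cos (2 * Real.pi * s) = Real.cos (2 * Real.pi * t) := by linarith
    have hmx : (max 0 (Real.sin (2 * Real.pi * s) + 1 / 2)) ^ 2 =
        (max 0 (Real.sin (2 * Real.pi * t) + 1 / 2)) ^ 2 := by linarith
    have hmx2 : max 0 (Real.sin (2 * Real.pi * s) + 1 / 2) =
        max 0 (Real.sin (2 * Real.pi * t) + 1 / 2) :=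
      (sq_eq_sq₀ (le_max_left _ _) (le_max_left _ _)).1 hmx
    have hsin2 : Real.sin (2 * Real.pi * s) ^ 2 = Real.sin (2 * Real.pi * t) ^ 2 := by
      have h1 := Real.sin_sq_add_cos_sq (2 * Real.pi * s)
      have h2 := Real.sin_sq_add_cos_sq (2 * Real.pi * t)
      rw [hcos] at h1
      linarith
    have hsin : Real.sin (2 * Real.pi * s) = Real.sin (2 * Real.pi * t) := by
      rcases sq_eq_sq_iff_eq_or_eq_neg.1 hsin2 with h | h
      · exact h
      · rw [h] at hmx2 ⊢
        rcases max_cases (0 : ℝ) (-Real.sin (2 * Real.pi * t) + 1 / 2) with ⟨h1, h1'⟩ | ⟨h1, h1'⟩ <;>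
        rcases max_cases (0 : ℝ) (Real.sin (2 * Real.pi * t) + 1 / 2) with ⟨h2, h2'⟩ | ⟨h2, h2'⟩ <;>
        rw [h1, h2] at hmx2 <;> linarith
    have hang := Real.Angle.cos_sin_inj hcos hsin
    rw [Real.Angle.angle_eq_iff_two_pi_dvd_sub] at hang
    obtain ⟨k, hk⟩ := hang
    have hpi := Real.pi_pos
    have h3 : s - t = k := by
      have : 2 * Real.pi * (s - t) = 2 * Real.pi * k := by linarith
      exact mul_left_cancel₀ (by positivity) this
    have h4 : k = 0 := by
      have h5 : (-1 : ℝ) < k := by rw [← h3]; linarith [hs.1, ht.2]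
      have h6 : (k : ℝ) < 1 := by rw [← h3]; linarith [hs.2, ht.1]
      have h7 : (-1 : ℤ) < k := by exact_mod_cast h5
      have h8 : k < 1 := by exact_mod_cast h6
      omega
    rw [h4] at h3
    push_cast at h3
    linarith
  · intro x hx
    have hx' := abs_le.1 hx
    refine ⟨-Real.arccos x / (2 * Real.pi), ?_⟩
    have hpi := Real.pi_pos
    have e : 2 * Real.pi * (-Real.arccos x / (2 * Real.pi)) = -Real.arccos x := by
      field_simp
    have h1 : Real.cos (-Real.arccos x) = x := by
      rw [Real.cos_neg, Real.cos_arccos (by linarith [hx'.1]) (by linarith [hx'.2])]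
    have h2 : Real.sin (-Real.arccos x) + 1 / 2 ≤ 0 := by
      rw [Real.sin_neg, Real.sin_arccos]
      have : (1 / 2 : ℝ) ≤ Real.sqrt (1 - x ^ 2) := by
        apply Real.le_sqrt_of_sq_le
        nlinarith [hx'.1, hx'.2]
      linarith
    simp only [hγ]
    rw [e, h1, max_eq_left h2]
    simp

end Q137.GL.TaskStadium
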