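import Pool.Agent.Q137.GL.Stmts2
import Pool.Agent.Q137.GL.TaskVer

set_option autoImplicit false

namespace Q137.GL.VerL137

open MeasureTheory Set Filter Topology
open Q137.HD (IsC1Curve)
open Q137.GL

theorem main : TaskVerL := by
  intro hor F W hL x
  have hinj : Function.Injective fun z : ℂ => Complex.I * z :=
    fun a b hab => mul_left_cancel₀ Complex.I_ne_zero hab
  have hcont : Continuous fun z : ℂ => Complex.I * z := continuous_const.mul continuous_id
  have hopen : ∀ V : Set ℂ, IsOpen V → IsOpen ((fun z : ℂ => Complex.I * z) '' V) := by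
    intro V hV
    have e : (fun z : ℂ => Complex.I * z) '' V = (fun z : ℂ => -Complex.I * z) ⁻¹' V := by
      ext w
      constructor
      · rintro ⟨z, hz, rfl⟩
        show -Complex.I * (Complex.I * z) ∈ V
        have : -Complex.I * (Complex.I * z) = z := by
          linear_combination (-z) * Complex.I_mul_I
        rwa [this]
      · intro hw
        refine ⟨-Complex.I * w, hw, ?_⟩
        show Complex.I * (-Complex.I * w) = w
        linear_combination (-w) * Complex.I_mul_I
    rw [e]
    exact hV.preimage (continuous_const.mul continuous_id)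
  have hL' : Loc (fun z : ℂ => F (Complex.I * z)) ((fun z : ℂ => Complex.I * z) ⁻¹' W) := by
    refine ⟨hL.op.preimage hcont, ?_, ?_, ?_, ?_⟩
    · exact hL.cont.comp hcont.continuousOn (fun z hz => hz)
    · intro a ha b hb hab
      exact hinj (hL.inj ha hb hab)
    · intro V hVW hV
      have e : (fun z : ℂ => F (Complex.I * z)) '' V = F '' ((fun z : ℂ => Complex.I * z) '' V) := by
        rw [Set.image_image]
      rw [e]
      exact hL.openMap _ (Set.image_subset_iff.2 hVW) (hopen V hV)
    · intro C hCW hC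
      have e : (fun z : ℂ => F (Complex.I * z)) '' C = F '' ((fun z : ℂ => Complex.I * z) '' C) := by
        rw [Set.image_image]
      rw [e]
      exact hL.pres _ (Set.image_subset_iff.2 hCW) (TaskVer.isC1Curve_rot hC)
  have h := hor _ _ hL' (-x)
  filter_upwards [h] with y hy hyW
  have e1 : ∀ t : ℝ, Complex.I * ((t : ℂ) + ((-x : ℝ) : ℂ) * Complex.I) = (x : ℂ) + (t : ℂ) * Complex.I := by
    intro t
    push_cast
    linear_combination (-(x : ℂ)) * Complex.I_mul_I
  have h1 : ((y : ℂ) + ((-x : ℝ) : ℂ) * Complex.I) ∈ (fun z : ℂ => Complex.I * z) ⁻¹' W := by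
    rw [Set.mem_preimage]
    show Complex.I * ((y : ℂ) + ((-x : ℝ) : ℂ) * Complex.I) ∈ W
    rw [e1]
    exact hyW
  have h2 : DifferentiableAt ℝ
      (fun t : ℝ => F (Complex.I * ((t : ℂ) + ((-x : ℝ) : ℂ) * Complex.I))) y := hy h1
  have e : (fun t : ℝ => F (Complex.I * ((t : ℂ) + ((-x : ℝ) : ℂ) * Complex.I))) =
      fun t : ℝ => F ((x : ℂ) + (t : ℂ) * Complex.I) := by
    funext t
    rw [e1]
  rw [e] at h2
  exact h2

end Q137.GL.VerL137
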