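import Pool.Agent.Q137.GL.Local
import Pool.Agent.Q137.GL.TaskGraph
import Pool.Agent.Q137.GL.TaskOnCurve
import Pool.Agent.Q137.GL.TaskStadium
import Pool.Agent.Q137.GL.TaskScaled
import Pool.Agent.Q137.GL.TaskHorL
import Pool.Agent.Q137.GL.VerL137
import Pool.Agent.Q137.GL.TaskClosed
import Pool.Agent.Q137.GL.AeL137
import Pool.Agent.Q137.GL.TaskExt
import Pool.Agent.Q137.GL.TaskDens1
import Pool.Agent.Q137.GL.TaskDensX
import Pool.Agent.Q137.GL.TaskDensY
import Pool.Agent.Q137.GL.MaxL137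
import Pool.Agent.Q137.GL.RectL137
import Pool.Agent.Q137.GL.TaskBd
import Pool.Agent.Q137.GL.TaskGlue
import Pool.Agent.Q137.GL.TaskCurveIn
import Pool.Agent.Q137.GL.TaskCurveOut
import Pool.Agent.Q137.GL.TaskMDiff
import Pool.Agent.Q137.GL.TaskLoc2
import Pool.Agent.Q137.GL.TaskCover

set_option autoImplicit false

namespace Q137.GL

open MeasureTheory Set Filter Topology
open scoped Manifold ContDiff

theorem localTheorem : ∀ (F : ℂ → ℂ) (W : Set ℂ), Loc F W →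
    ∀ᵐ z : ℂ, z ∈ W → DifferentiableAt ℝ F z :=
  local_ae TaskGraph.main TaskOnCurve.main TaskStadium.main TaskScaled.main TaskHorL.main
    VerL137.main TaskClosed.main AeL137.mainX AeL137.mainY TaskExt.main TaskDens1.main
    TaskDensX.main TaskDensY.main MaxL137.main RectL137.main TaskBd.main TaskGlue.main

theorem surfaceTheorem : ∀ (S : Type) [TopologicalSpace S] [ChartedSpace ℂ S]
    [IsManifold 𝓘(ℝ, ℂ) ∞ S] (f : S ≃ₜ S), (∀ C, IsC1CurveS S C → IsC1CurveS S (f '' C)) →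
    ∀ φ ∈ IsManifold.maximalAtlas 𝓘(ℝ, ℂ) ∞ S,
      volume (φ '' (φ.source ∩ {p | ¬ MDifferentiableAt 𝓘(ℝ, ℂ) 𝓘(ℝ, ℂ) f p})) = 0 :=
  TaskCover.main TaskMDiff.main TaskLoc2.main TaskCurveIn.main TaskCurveOut.main localTheorem

end Q137.GL
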