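import Pool.Agent.Q137.GL.Stmts2

set_option autoImplicit false

namespace Q137.GL

open MeasureTheory Set Filter Topology
open scoped Manifold ContDiff
open Q137.HD (IsC1Curve)

theorem AD_mono (F : ℂ → ℂ) (v : ℂ) (k n n' : ℕ) (h : n ≤ n') : AD F v k n ⊆ AD F v k n' := by
  intro z hz s t hs hs' ht ht'
  have h1 : (1 : ℝ) / (n' + 1) ≤ 1 / (n + 1) := by
    apply one_div_le_one_div_of_le (by positivity)
    have : (n : ℝ) ≤ n' := by exact_mod_cast h
    linarith
  exact hz s t hs (hs'.trans h1) ht (ht'.trans h1)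

/-- the local theorem -/
theorem local_ae (hGraph : TaskGraph) (hOn : TaskOnCurve) (hSt : TaskStadium) (hSc : TaskScaled)
    (hHor : TaskHorL) (hVer : TaskVerL) (hCl : TaskClosed) (hX : TaskAeXL) (hY : TaskAeYL)
    (hExt : TaskExt) (hD1 : TaskDens1) (hDX : TaskDensX) (hDY : TaskDensY) (hMax : TaskMaxL)
    (hRect : TaskRectL) (hBd : TaskBd) (hGlue : TaskGlue) :
    ∀ (F : ℂ → ℂ) (W : Set ℂ), Loc F W → ∀ᵐ z : ℂ, z ∈ W → DifferentiableAt ℝ F z := by
  have hhor := hHor (hOn hGraph) (hSc hSt)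
  have hver := hVer hhor
  intro F W hL
  -- local statement
  have key : ∀ c ∈ W, ∃ ρ > 0, ∀ᵐ z : ℂ, z ∈ Metric.ball c ρ → DifferentiableAt ℝ F z := by
    intro c hc
    obtain ⟨ρ, hρ, hsub⟩ := Metric.nhds_basis_closedBall.mem_iff.1 (hL.op.mem_nhds hc)
    obtain ⟨F', hF', heq⟩ := hExt F c ρ hρ (hL.cont.mono hsub)
    refine ⟨ρ, hρ, ?_⟩
    set V := Metric.ball c ρ with hV
    have hVo : IsOpen V := Metric.isOpen_ball
    have hVW : V ⊆ W := Metric.ball_subset_closedBall.trans hsub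
    have heqV : EqOn F' F V := fun z hz => heq z (Metric.ball_subset_closedBall hz)
    have hx : ∀ᵐ z : ℂ, z ∈ V → ∀ k, ∃ n, z ∈ AD F' 1 k n := by
      refine hX hCl F' V hF' hVo fun y => ?_
      filter_upwards [hhor F W hL y] with x hx hxV
      have h1 := hx (hVW hxV)
      refine h1.congr_of_eventuallyEq ?_
      have hc1 : Continuous fun x : ℝ => (x + y * Complex.I : ℂ) := by fun_prop
      have h2 : ∀ᶠ x' : ℝ in 𝓝 x, (x' + y * Complex.I : ℂ) ∈ V := hc1.continuousAt (hVo.mem_nhds hxV)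
      filter_upwards [h2] with x' hx'
      exact heqV hx'
    have hy : ∀ᵐ z : ℂ, z ∈ V → ∀ k, ∃ n, z ∈ AD F' Complex.I k n := by
      refine hY hCl F' V hF' hVo fun x => ?_
      filter_upwards [hver F W hL x] with y hy hyV
      have h1 := hy (hVW hyV)
      refine h1.congr_of_eventuallyEq ?_
      have hc1 : Continuous fun y : ℝ => (x + y * Complex.I : ℂ) := by fun_prop
      have h2 : ∀ᶠ y' : ℝ in 𝓝 y, (x + y' * Complex.I : ℂ) ∈ V := hc1.continuousAt (hVo.mem_nhds hyV)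
      filter_upwards [h2] with y' hy'
      exact heqV hy'
    have hBc : ∀ k n, IsClosed (AD F' 1 k n ∩ AD F' Complex.I k n) := fun k n =>
      (hCl F' 1 k n hF').inter (hCl F' Complex.I k n hF')
    have hdx : ∀ᵐ z : ℂ, ∀ k n j, z ∈ AD F' 1 k n ∩ AD F' Complex.I k n →
        Dn (AD F' 1 k n ∩ AD F' Complex.I k n) 1 j z := by
      rw [ae_all_iff]; intro k
      rw [ae_all_iff]; intro n
      rw [ae_all_iff]; intro j
      exact hDX hD1 _ j (hBc k n)
    have hdy : ∀ᵐ z : ℂ, ∀ k n j, z ∈ AD F' 1 k n ∩ AD F' Complex.I k n →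
        Dn (AD F' 1 k n ∩ AD F' Complex.I k n) Complex.I j z := by
      rw [ae_all_iff]; intro k
      rw [ae_all_iff]; intro n
      rw [ae_all_iff]; intro j
      exact hDY hD1 _ j (hBc k n)
    filter_upwards [hx, hy, hdx, hdy] with z h1 h2 h3 h4 hzV
    have hd : DifferentiableAt ℝ F' z := by
      refine hGlue F' z fun ε hε => ?_
      obtain ⟨k, hk⟩ := exists_nat_gt (16 / ε)
      obtain ⟨n₁, hn₁⟩ := h1 hzV k
      obtain ⟨n₂, hn₂⟩ := h2 hzV k
      have hz : z ∈ AD F' 1 k (max n₁ n₂) ∩ AD F' Complex.I k (max n₁ n₂) :=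
        ⟨AD_mono F' 1 k _ _ (le_max_left _ _) hn₁, AD_mono F' Complex.I k _ _ (le_max_right _ _) hn₂⟩
      obtain ⟨p, q, ρ₁, hρ₁, hest⟩ := hBd F' z k (max n₁ n₂) hF' hz
      have hk0 : (0 : ℝ) < 4 / (k + 1) := by positivity
      obtain ⟨ρ', hρ', hest'⟩ := hRect hMax F' V z _ p q ρ₁ (4 / (k + 1)) hVo hF'.continuousOn
        (fun U hU hUo => by
          have : F' '' U = F '' U := image_congr fun w hw => heqV (hU hw)
          rw [this]
          exact hL.openMap U (hU.trans hVW) hUo) hzV hρ₁ hk0 hest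
        (fun j => ⟨h3 k _ j hz, h4 k _ j hz⟩)
      refine ⟨p, q, ρ', hρ', fun x y hx hy => (hest' x y hx hy).trans ?_⟩
      refine mul_le_mul_of_nonneg_right ?_ (by positivity)
      have hk1 : (0 : ℝ) < k + 1 := by positivity
      have : 16 < ε * (k + 1) := by
        have h5 : 16 / ε < k + 1 := by linarith
        rw [div_lt_iff₀ hε] at h5
        linarith
      rw [← mul_div_assoc, div_le_iff₀ hk1]
      linarith
    refine hd.congr_of_eventuallyEq ?_
    filter_upwards [hVo.mem_nhds hzV] with w hw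
    exact (heqV hw).symm
  choose! ρ hρ hae using key
  obtain ⟨T, hTsub, hTc, hTcov⟩ := TopologicalSpace.countable_cover_nhdsWithin
    (f := fun c => Metric.ball c (ρ c)) (s := W)
    (fun c hc => mem_nhdsWithin_of_mem_nhds (Metric.ball_mem_nhds c (hρ c hc)))
  have h5 : ∀ᵐ z : ℂ, ∀ c ∈ T, z ∈ Metric.ball c (ρ c) → DifferentiableAt ℝ F z := by
    rw [ae_ball_iff hTc]
    intro c hc
    exact hae c (hTsub hc)
  filter_upwards [h5] with z hz hzW
  obtain ⟨c, hc, hzc⟩ := mem_iUnion₂.1 (hTcov hzW)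
  exact hz c hc hzc

end Q137.GL
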