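import Pool.Agent.Q137.GL.Stmts2

set_option autoImplicit false

namespace Q137.GL.MaxL137

open MeasureTheory Set Filter Topology
open Q137.GL

theorem main : TaskMaxL := by
  intro F V hV hF ho x₁ x₂ y₁ y₂ M c z hK hz1 hz2 hz3 hz4 hb
  set K : Set ℂ := Icc x₁ x₂ ×ℂ Icc y₁ y₂ with hKdef
  have hKc : IsCompact K := isCompact_Icc.reProdIm isCompact_Icc
  have hmem : ∀ w : ℂ, w ∈ K ↔ (x₁ ≤ w.re ∧ w.re ≤ x₂) ∧ (y₁ ≤ w.im ∧ w.im ≤ y₂) := fun w => Iff.rfl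
  have hKV : K ⊆ V := fun w hw => hK w hw.1.1 hw.1.2 hw.2.1 hw.2.2
  have hzK : z ∈ K := ⟨⟨hz1, hz2⟩, ⟨hz3, hz4⟩⟩
  have hcont : ContinuousOn (fun w => ‖F w - c‖) K := ((hF.mono hKV).sub continuousOn_const).norm
  obtain ⟨w₀, hw₀, hmax⟩ := hKc.exists_isMaxOn ⟨z, hzK⟩ hcont
  refine (hmax hzK).trans ?_
  show ‖F w₀ - c‖ ≤ M
  by_cases hbd : w₀.re = x₁ ∨ w₀.re = x₂ ∨ w₀.im = y₁ ∨ w₀.im = y₂
  · exact hb w₀ hw₀.1.1 hw₀.1.2 hw₀.2.1 hw₀.2.2 hbd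
  · exfalso
    push Not at hbd
    obtain ⟨b1, b2, b3, b4⟩ := hbd
    set U : Set ℂ := Ioo x₁ x₂ ×ℂ Ioo y₁ y₂ with hU
    have hUo : IsOpen U := isOpen_Ioo.reProdIm isOpen_Ioo
    have hUK : U ⊆ K := fun w hw => ⟨⟨hw.1.1.le, hw.1.2.le⟩, ⟨hw.2.1.le, hw.2.2.le⟩⟩
    have hwU : w₀ ∈ U := ⟨⟨lt_of_le_of_ne hw₀.1.1 (Ne.symm b1), lt_of_le_of_ne hw₀.1.2 b2⟩,
      ⟨lt_of_le_of_ne hw₀.2.1 (Ne.symm b3), lt_of_le_of_ne hw₀.2.2 b4⟩⟩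
    have hFU : IsOpen (F '' U) := ho U (hUK.trans hKV) hUo
    have hsub : F '' U ⊆ Metric.closedBall c ‖F w₀ - c‖ := by
      rintro _ ⟨w, hw, rfl⟩
      rw [mem_closedBall_iff_norm]
      exact hmax (hUK hw)
    have hin : F w₀ ∈ interior (Metric.closedBall c ‖F w₀ - c‖) :=
      mem_interior.2 ⟨F '' U, hsub, hFU, ⟨w₀, hwU, rfl⟩⟩
    by_cases h0 : ‖F w₀ - c‖ = 0
    · rw [h0, Metric.closedBall_zero, interior_singleton] at hin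
      exact hin
    · rw [interior_closedBall c h0, mem_ball_iff_norm] at hin
      exact lt_irrefl _ hin

end Q137.GL.MaxL137
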