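import Pool.Agent.Q137.HD.Stmts

/-! MP_bd3523_gt, Q2 for the plane (answer: measure zero). Blueprint. Prove `theorem main : TaskX` in the file
`Pool/Agent/Q137/GL/TaskX.lean`, namespace `Q137.GL.TaskX` (import Pool.Agent.Q137.GL.Stmts).

Idea: `h` maps a segment of a horizontal line into a `C¹` curve, so it is differentiable almost everywhere on it
(monotone functions); so both partial derivatives exist almost everywhere, and then the argument of Gehring and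
Lehto (density points, maximum principle for open maps on rectangles) gives differentiability almost everywhere. -/

set_option autoImplicit false

namespace Q137.GL

open MeasureTheory Set Filter Topology
open Q137.HD (IsC1Curve)

noncomputable section

/-- maps `C¹` curves onto `C¹` curves -/
def Pres (F : ℂ → ℂ) : Prop := ∀ C, IsC1Curve C → IsC1Curve (F '' C)

/-- inverse function theorem for `t ↦ ⟪u, γ t⟫`, `u = γ' t₀`, `γ t₀ = p`; `γ` of the complement of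
`(t₀-δ,t₀+δ)` in a period is compact and does not contain `p`; `T = γ ∘ (local inverse)` -/
def TaskGraph : Prop := ∀ C, IsC1Curve C → ∀ p ∈ C, ∃ (u : ℂ) (N : Set ℂ) (T : ℝ → ℂ), IsOpen N ∧ p ∈ N ∧
  ∀ q ∈ C ∩ N, T (inner ℝ u q) = q ∧ DifferentiableAt ℝ T (inner ℝ u q)

/-- locally `t ↦ ⟪u, G t⟫` is continuous and injective, so strictly monotone, so differentiable a.e.
(`Monotone.ae_differentiableAt`, `MonotoneOn.ae_differentiableWithinAt`); Lindelöf -/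
def TaskOnCurve : Prop := TaskGraph → ∀ C, IsC1Curve C → ∀ (G : ℝ → ℂ) (a c : ℝ), Continuous G → a < c →
  InjOn G (Icc a c) → (∀ t ∈ Icc a c, G t ∈ C) → ∀ᵐ t : ℝ, t ∈ Ioo a c → DifferentiableAt ℝ G t

/-- the curve `(cos θ, (max 0 (sin θ + 1/2))²)`, `θ = 2 π t`, translated; it contains the segment
`|x| ≤ √3/2`, `y = 0` -/
def TaskStadium : Prop := ∀ c : ℂ, ∃ C, IsC1Curve C ∧ ∀ x : ℝ, |x| ≤ 1 / 2 → c + x ∈ C

def TaskHor : Prop := TaskGraph → TaskOnCurve → TaskStadium → ∀ F : ℂ → ℂ, Continuous F →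
  Function.Injective F → Pres F → ∀ y : ℝ, ∀ᵐ x : ℝ, DifferentiableAt ℝ (fun x : ℝ => F (x + y * Complex.I)) x

/-- apply the horizontal statement to `z ↦ F (I z)` -/
def TaskVer : Prop := (∀ F : ℂ → ℂ, Continuous F →
  Function.Injective F → Pres F → ∀ y : ℝ, ∀ᵐ x : ℝ, DifferentiableAt ℝ (fun x : ℝ => F (x + y * Complex.I)) x) →
  ∀ F : ℂ → ℂ, Continuous F →
  Function.Injective F → Pres F → ∀ x : ℝ, ∀ᵐ y : ℝ, DifferentiableAt ℝ (fun y : ℝ => F (x + y * Complex.I)) y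

/-- points where the difference quotients in the direction `v` vary by at most `1/(k+1)` up to the scale
`1/(n+1)` -/
def AD (F : ℂ → ℂ) (v : ℂ) (k n : ℕ) : Set ℂ := {z | ∀ s t : ℝ, s ≠ 0 → |s| ≤ 1 / (n + 1) → t ≠ 0 →
  |t| ≤ 1 / (n + 1) → ‖(F (z + s * v) - F z) / s - (F (z + t * v) - F z) / t‖ ≤ 1 / (k + 1)}

def TaskClosed : Prop := ∀ (F : ℂ → ℂ) (v : ℂ) (k n : ℕ), Continuous F → IsClosed (AD F v k n)

/-- Fubini on `ℂ = ℝ × ℝ`; the complement of `⋂_k ⋃_n AD` is a Borel set -/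
def TaskAeX : Prop := TaskClosed → ∀ F : ℂ → ℂ, Continuous F →
  (∀ y : ℝ, ∀ᵐ x : ℝ, DifferentiableAt ℝ (fun x : ℝ => F (x + y * Complex.I)) x) →
  ∀ᵐ z : ℂ, ∀ k, ∃ n, z ∈ AD F 1 k n

def TaskAeY : Prop := TaskClosed → ∀ F : ℂ → ℂ, Continuous F →
  (∀ x : ℝ, ∀ᵐ y : ℝ, DifferentiableAt ℝ (fun y : ℝ => F (x + y * Complex.I)) y) →
  ∀ᵐ z : ℂ, ∀ k, ∃ n, z ∈ AD F Complex.I k n

/-- near `z` every interval of relative length `1/(j+1)` in the direction `v` contains a point of `B` -/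
def Dn (B : Set ℂ) (v : ℂ) (j : ℕ) (z : ℂ) : Prop := ∃ δ > 0, ∀ r : ℝ, 0 < r → r < δ → ∀ a : ℝ, |a| ≤ 2 * r →
  ∃ x : ℝ, a < x ∧ x < a + r / (j + 1) ∧ z + x * v ∈ B

/-- Lebesgue density theorem on the line (for instance `IsUnifLocDoublingMeasure` or
`Besicovitch.ae_tendsto_measure_inter_div`) -/
def TaskDens1 : Prop := ∀ (B : Set ℝ) (j : ℕ), IsClosed B → ∀ᵐ x : ℝ, x ∈ B →
  ∃ δ > 0, ∀ r : ℝ, 0 < r → r < δ → ∀ a : ℝ, |a| < 3 * r →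
    ∃ t ∈ Icc (a + r / (4 * (j + 1))) (a + 3 * r / (4 * (j + 1))), x + t ∈ B

/-- Fubini. The set of the `z` such that there are `0 < r < δ`, `|a| < 3 r` with `z + t v ∉ B` for all
`t ∈ [a + r/(4(j+1)), a + 3r/(4(j+1))]` is open, so the bad set is contained in a Borel set with null slices -/
def TaskDensX : Prop := TaskDens1 → ∀ (B : Set ℂ) (j : ℕ), IsClosed B → ∀ᵐ z : ℂ, z ∈ B → Dn B 1 j z

def TaskDensY : Prop := TaskDens1 → ∀ (B : Set ℂ) (j : ℕ), IsClosed B → ∀ᵐ z : ℂ, z ∈ B → Dn B Complex.I j z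

/-- maximum principle for open maps -/
def TaskMax : Prop := ∀ (h : ℂ ≃ₜ ℂ) (x₁ x₂ y₁ y₂ M : ℝ) (c z : ℂ), x₁ ≤ z.re → z.re ≤ x₂ → y₁ ≤ z.im →
  z.im ≤ y₂ → (∀ w : ℂ, x₁ ≤ w.re → w.re ≤ x₂ → y₁ ≤ w.im → w.im ≤ y₂ →
    (w.re = x₁ ∨ w.re = x₂ ∨ w.im = y₁ ∨ w.im = y₂) → ‖h w - c‖ ≤ M) → ‖h z - c‖ ≤ M

/-- `F(z₀+x+iy) - F(z₀) - x p - y q` for `z₀+x ∈ B` or `z₀+iy ∈ B`, `B = AD F 1 k n ∩ AD F I k n`; compare with
the difference quotients `P z = (F(z+t) - F z)/t`, `Q z = (F (z + t I) - F z)/t` for the fixed `t = 1/(n+1)`,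
which are continuous in `z` -/
def TaskBd : Prop := ∀ (F : ℂ → ℂ) (z₀ : ℂ) (k n : ℕ), Continuous F → z₀ ∈ AD F 1 k n ∩ AD F Complex.I k n →
  ∃ (p q : ℂ) (ρ : ℝ), 0 < ρ ∧ ∀ x y : ℝ, |x| ≤ ρ → |y| ≤ ρ →
    (z₀ + x ∈ AD F 1 k n ∩ AD F Complex.I k n ∨ z₀ + y * Complex.I ∈ AD F 1 k n ∩ AD F Complex.I k n) →
    ‖F (z₀ + x + y * Complex.I) - F z₀ - x * p - y * q‖ ≤ 4 / (k + 1) * (|x| + |y|)

/-- rectangle with the sides through points of `B` on the lines through `z₀`; maximum principle -/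
def TaskRect : Prop := TaskMax → ∀ (h : ℂ ≃ₜ ℂ) (z₀ : ℂ) (B : Set ℂ) (p q : ℂ) (ρ ε : ℝ), 0 < ρ → 0 < ε →
  (∀ x y : ℝ, |x| ≤ ρ → |y| ≤ ρ → (z₀ + x ∈ B ∨ z₀ + y * Complex.I ∈ B) →
    ‖h (z₀ + x + y * Complex.I) - h z₀ - x * p - y * q‖ ≤ ε * (|x| + |y|)) →
  (∀ j, Dn B 1 j z₀ ∧ Dn B Complex.I j z₀) →
  ∃ ρ' > 0, ∀ x y : ℝ, |x| ≤ ρ' → |y| ≤ ρ' →
    ‖h (z₀ + x + y * Complex.I) - h z₀ - x * p - y * q‖ ≤ 4 * ε * (|x| + |y|)

/-- `p`, `q` depend on `ε`; they are Cauchy as `ε → 0` -/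
def TaskGlue : Prop := ∀ (F : ℂ → ℂ) (z₀ : ℂ), (∀ ε > 0, ∃ (p q : ℂ) (ρ : ℝ), 0 < ρ ∧
  ∀ x y : ℝ, |x| ≤ ρ → |y| ≤ ρ → ‖F (z₀ + x + y * Complex.I) - F z₀ - x * p - y * q‖ ≤ ε * (|x| + |y|)) →
  DifferentiableAt ℝ F z₀

end

end Q137.GL
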