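import Pool.Agent.Q137.GL.Stmts

/-! MP_bd3523_gt, Q2 (answer: measure zero), part 2 of the blueprint: the local version and arbitrary surfaces. Prove
`theorem main : TaskX` in the file `Pool/Agent/Q137/GL/TaskX.lean`, namespace `Q137.GL.TaskX`
(import Pool.Agent.Q137.GL.Stmts2). -/

set_option autoImplicit false

namespace Q137.GL

open MeasureTheory Set Filter Topology
open scoped Manifold ContDiff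
open Q137.HD (IsC1Curve)

noncomputable section

/-! ### local version -/

structure Loc (F : ℂ → ℂ) (W : Set ℂ) : Prop where
  op : IsOpen W
  cont : ContinuousOn F W
  inj : InjOn F W
  openMap : ∀ V ⊆ W, IsOpen V → IsOpen (F '' V)
  pres : ∀ C ⊆ W, IsC1Curve C → IsC1Curve (F '' C)

/-- scale and translate the curve of `TaskStadium` (for `c = 0`), it is bounded -/
def TaskScaled : Prop := TaskStadium → ∀ (W : Set ℂ) (c : ℂ), IsOpen W → c ∈ W →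
  ∃ r > 0, ∃ C ⊆ W, IsC1Curve C ∧ ∀ x : ℝ, |x| ≤ r → c + x ∈ C

/-- horizontal lines; to apply the statement of `TaskOnCurve` compose with `projIcc`; countable cover -/
def TaskHorL : Prop := (∀ C, IsC1Curve C → ∀ (G : ℝ → ℂ) (a c : ℝ), Continuous G → a < c →
  InjOn G (Icc a c) → (∀ t ∈ Icc a c, G t ∈ C) → ∀ᵐ t : ℝ, t ∈ Ioo a c → DifferentiableAt ℝ G t) →
  (∀ (W : Set ℂ) (c : ℂ), IsOpen W → c ∈ W →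
    ∃ r > 0, ∃ C ⊆ W, IsC1Curve C ∧ ∀ x : ℝ, |x| ≤ r → c + x ∈ C) →
  ∀ (F : ℂ → ℂ) (W : Set ℂ), Loc F W → ∀ y : ℝ, ∀ᵐ x : ℝ, (x + y * Complex.I : ℂ) ∈ W →
    DifferentiableAt ℝ (fun x : ℝ => F (x + y * Complex.I)) x

/-- apply the horizontal statement to `z ↦ F (I z)` on `I⁻¹ W` -/
def TaskVerL : Prop := (∀ (F : ℂ → ℂ) (W : Set ℂ), Loc F W → ∀ y : ℝ, ∀ᵐ x : ℝ, (x + y * Complex.I : ℂ) ∈ W →
    DifferentiableAt ℝ (fun x : ℝ => F (x + y * Complex.I)) x) →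
  ∀ (F : ℂ → ℂ) (W : Set ℂ), Loc F W → ∀ x : ℝ, ∀ᵐ y : ℝ, (x + y * Complex.I : ℂ) ∈ W →
    DifferentiableAt ℝ (fun y : ℝ => F (x + y * Complex.I)) y

def TaskAeXL : Prop := TaskClosed → ∀ (F : ℂ → ℂ) (W : Set ℂ), Continuous F → IsOpen W →
  (∀ y : ℝ, ∀ᵐ x : ℝ, (x + y * Complex.I : ℂ) ∈ W → DifferentiableAt ℝ (fun x : ℝ => F (x + y * Complex.I)) x) →
  ∀ᵐ z : ℂ, z ∈ W → ∀ k, ∃ n, z ∈ AD F 1 k n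

def TaskAeYL : Prop := TaskClosed → ∀ (F : ℂ → ℂ) (W : Set ℂ), Continuous F → IsOpen W →
  (∀ x : ℝ, ∀ᵐ y : ℝ, (x + y * Complex.I : ℂ) ∈ W → DifferentiableAt ℝ (fun y : ℝ => F (x + y * Complex.I)) y) →
  ∀ᵐ z : ℂ, z ∈ W → ∀ k, ∃ n, z ∈ AD F Complex.I k n

/-- compose with the projection onto the closed ball -/
def TaskExt : Prop := ∀ (F : ℂ → ℂ) (c : ℂ) (ρ : ℝ), 0 < ρ → ContinuousOn F (Metric.closedBall c ρ) →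
  ∃ F' : ℂ → ℂ, Continuous F' ∧ ∀ z ∈ Metric.closedBall c ρ, F' z = F z

/-- maximum principle for open maps -/
def TaskMaxL : Prop := ∀ (F : ℂ → ℂ) (V : Set ℂ), IsOpen V → ContinuousOn F V →
  (∀ U ⊆ V, IsOpen U → IsOpen (F '' U)) → ∀ (x₁ x₂ y₁ y₂ M : ℝ) (c z : ℂ),
  (∀ w : ℂ, x₁ ≤ w.re → w.re ≤ x₂ → y₁ ≤ w.im → w.im ≤ y₂ → w ∈ V) →
  x₁ ≤ z.re → z.re ≤ x₂ → y₁ ≤ z.im → z.im ≤ y₂ →
  (∀ w : ℂ, x₁ ≤ w.re → w.re ≤ x₂ → y₁ ≤ w.im → w.im ≤ y₂ →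
    (w.re = x₁ ∨ w.re = x₂ ∨ w.im = y₁ ∨ w.im = y₂) → ‖F w - c‖ ≤ M) → ‖F z - c‖ ≤ M

/-- rectangle with the sides through points of `B` on the lines through `z₀`; maximum principle -/
def TaskRectL : Prop := TaskMaxL → ∀ (F : ℂ → ℂ) (V : Set ℂ) (z₀ : ℂ) (B : Set ℂ) (p q : ℂ) (ρ ε : ℝ),
  IsOpen V → ContinuousOn F V → (∀ U ⊆ V, IsOpen U → IsOpen (F '' U)) → z₀ ∈ V → 0 < ρ → 0 < ε →
  (∀ x y : ℝ, |x| ≤ ρ → |y| ≤ ρ → (z₀ + x ∈ B ∨ z₀ + y * Complex.I ∈ B) →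
    ‖F (z₀ + x + y * Complex.I) - F z₀ - x * p - y * q‖ ≤ ε * (|x| + |y|)) →
  (∀ j, Dn B 1 j z₀ ∧ Dn B Complex.I j z₀) →
  ∃ ρ' > 0, ∀ x y : ℝ, |x| ≤ ρ' → |y| ≤ ρ' →
    ‖F (z₀ + x + y * Complex.I) - F z₀ - x * p - y * q‖ ≤ 4 * ε * (|x| + |y|)

/-! ### surfaces -/

section surface

variable (S : Type) [TopologicalSpace S] [ChartedSpace ℂ S]

/-- a `C¹` curve in the surface -/
def IsC1CurveS (C : Set S) : Prop := ∃ γ : ℝ → S, ContMDiff 𝓘(ℝ, ℝ) 𝓘(ℝ, ℂ) 1 γ ∧ (∀ t, γ (t + 1) = γ t) ∧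
  (∀ t, mfderiv 𝓘(ℝ, ℝ) 𝓘(ℝ, ℂ) γ t ≠ 0) ∧ InjOn γ (Ico 0 1) ∧ C = range γ

end surface

/-- `φ.symm ∘ γ`; `contMDiffOn_symm_of_mem_maximalAtlas`; the derivative is not zero, as `φ ∘ (φ.symm ∘ γ) = γ` -/
def TaskCurveIn : Prop := ∀ (S : Type) [TopologicalSpace S] [ChartedSpace ℂ S] [IsManifold 𝓘(ℝ, ℂ) ∞ S]
  (φ : OpenPartialHomeomorph S ℂ), φ ∈ IsManifold.maximalAtlas 𝓘(ℝ, ℂ) ∞ S →
  ∀ C ⊆ φ.target, IsC1Curve C → IsC1CurveS S (φ.symm '' C)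

/-- `φ ∘ γ` -/
def TaskCurveOut : Prop := ∀ (S : Type) [TopologicalSpace S] [ChartedSpace ℂ S] [IsManifold 𝓘(ℝ, ℂ) ∞ S]
  (φ : OpenPartialHomeomorph S ℂ), φ ∈ IsManifold.maximalAtlas 𝓘(ℝ, ℂ) ∞ S →
  ∀ C ⊆ φ.source, IsC1CurveS S C → IsC1Curve (φ '' C)

/-- `f = ψ.symm ∘ (ψ ∘ f ∘ φ.symm) ∘ φ` near `q` -/
def TaskMDiff : Prop := ∀ (S : Type) [TopologicalSpace S] [ChartedSpace ℂ S] [IsManifold 𝓘(ℝ, ℂ) ∞ S]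
  (φ ψ : OpenPartialHomeomorph S ℂ), φ ∈ IsManifold.maximalAtlas 𝓘(ℝ, ℂ) ∞ S →
  ψ ∈ IsManifold.maximalAtlas 𝓘(ℝ, ℂ) ∞ S → ∀ (f : S ≃ₜ S) (q : S), q ∈ φ.source → f q ∈ ψ.source →
  DifferentiableAt ℝ (fun z => ψ (f (φ.symm z))) (φ q) → MDifferentiableAt 𝓘(ℝ, ℂ) 𝓘(ℝ, ℂ) f q

/-- `W = φ(φ.source ∩ f⁻¹ ψ.source)`, `F = ψ ∘ f ∘ φ.symm` -/
def TaskLoc2 : Prop := TaskCurveIn → TaskCurveOut →
  ∀ (S : Type) [TopologicalSpace S] [ChartedSpace ℂ S] [IsManifold 𝓘(ℝ, ℂ) ∞ S]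
  (φ ψ : OpenPartialHomeomorph S ℂ), φ ∈ IsManifold.maximalAtlas 𝓘(ℝ, ℂ) ∞ S →
  ψ ∈ IsManifold.maximalAtlas 𝓘(ℝ, ℂ) ∞ S → ∀ (f : S ≃ₜ S), (∀ C, IsC1CurveS S C → IsC1CurveS S (f '' C)) →
  Loc (fun z => ψ (f (φ.symm z))) (φ.target ∩ {z | f (φ.symm z) ∈ ψ.source})

/-- Lindelöf: `φ.target` is covered by the open sets `W_ψ`, `ψ = chartAt ℂ p` -/
def TaskCover : Prop := TaskMDiff → TaskLoc2 → TaskCurveIn → TaskCurveOut →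
  (∀ (F : ℂ → ℂ) (W : Set ℂ), Loc F W → ∀ᵐ z : ℂ, z ∈ W → DifferentiableAt ℝ F z) →
  ∀ (S : Type) [TopologicalSpace S] [ChartedSpace ℂ S] [IsManifold 𝓘(ℝ, ℂ) ∞ S]
  (f : S ≃ₜ S), (∀ C, IsC1CurveS S C → IsC1CurveS S (f '' C)) →
  ∀ φ ∈ IsManifold.maximalAtlas 𝓘(ℝ, ℂ) ∞ S,
    volume (φ '' (φ.source ∩ {p | ¬ MDifferentiableAt 𝓘(ℝ, ℂ) 𝓘(ℝ, ℂ) f p})) = 0

end

end Q137.GL
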