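import Pool.Agent.Q137.GL.Stmts
set_option autoImplicit false

namespace Q137.GL.TaskHor
open Q137.GL MeasureTheory Set Filter Topology
open Q137.HD (IsC1Curve)

theorem main : Q137.GL.TaskHor := by
  intro hGr hOn hSt F hFc hFi hP y
  have hOn' := hOn hGr
  set G : ℝ → ℂ := fun x : ℝ => F (x + y * Complex.I) with hG
  have hGc : Continuous G := hFc.comp (by fun_prop)
  have hGi : Function.Injective G := by
    intro s t hst
    have h1 := hFi hst
    have h2 : (s : ℂ) = t := add_right_cancel h1
    exact_mod_cast h2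
  have key : ∀ m : ℤ, ∀ᵐ t : ℝ, t ∈ Ioo ((m : ℝ) / 2 - 1 / 2) ((m : ℝ) / 2 + 1 / 2) →
      DifferentiableAt ℝ G t := by
    intro m
    obtain ⟨C, hC, hCs⟩ := hSt (((m : ℝ) / 2 : ℝ) + y * Complex.I)
    refine hOn' (F '' C) (hP C hC) G _ _ hGc (by linarith) hGi.injOn ?_
    intro t ht
    refine ⟨t + y * Complex.I, ?_, rfl⟩
    have h1 := hCs (t - (m : ℝ) / 2) (by rw [abs_le]; constructor <;> linarith [ht.1, ht.2])
    convert h1 using 1
    push_cast
    ring
  filter_upwards [ae_all_iff.2 key] with t ht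
  apply ht ⌊2 * t⌋
  constructor
  · have := Int.floor_le (2 * t)
    linarith
  · have := Int.lt_floor_add_one (2 * t)
    linarith

end Q137.GL.TaskHor
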