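import Pool.Agent.Q137.GL.Stmts2

/-! Proof of `TaskMaxL` (maximum principle for open maps on a rectangle). -/

open Set Filter Topology

namespace Q137.GL.TaskMaxL

theorem max_aux (F : ℂ → ℂ) (V : Set ℂ) (hF : ContinuousOn F V)
    (hop : ∀ U ⊆ V, IsOpen U → IsOpen (F '' U)) (x₁ x₂ y₁ y₂ M : ℝ) (c z : ℂ)
    (hV : ∀ w : ℂ, x₁ ≤ w.re → w.re ≤ x₂ → y₁ ≤ w.im → w.im ≤ y₂ → w ∈ V)
    (h1 : x₁ ≤ z.re) (h2 : z.re ≤ x₂) (h3 : y₁ ≤ z.im) (h4 : z.im ≤ y₂)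
    (hM : ∀ w : ℂ, x₁ ≤ w.re → w.re ≤ x₂ → y₁ ≤ w.im → w.im ≤ y₂ →
      (w.re = x₁ ∨ w.re = x₂ ∨ w.im = y₁ ∨ w.im = y₂) → ‖F w - c‖ ≤ M) : ‖F z - c‖ ≤ M := by
  set K : Set ℂ := Icc x₁ x₂ ×ℂ Icc y₁ y₂ with hK
  have hKc : IsCompact K := isCompact_Icc.reProdIm isCompact_Icc
  have hKmem : ∀ w : ℂ, w ∈ K ↔ (x₁ ≤ w.re ∧ w.re ≤ x₂) ∧ (y₁ ≤ w.im ∧ w.im ≤ y₂) := fun w => Iff.rfl
  have hzK : z ∈ K := ⟨⟨h1, h2⟩, ⟨h3, h4⟩⟩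
  have hKV : K ⊆ V := fun w hw => hV w hw.1.1 hw.1.2 hw.2.1 hw.2.2
  obtain ⟨w, hwK, hw⟩ := hKc.exists_isMaxOn ⟨z, hzK⟩
    (((hF.mono hKV).sub continuousOn_const).norm : ContinuousOn (fun w => ‖F w - c‖) K)
  refine (hw hzK).trans ?_
  change ‖F w - c‖ ≤ M
  by_cases hb : w.re = x₁ ∨ w.re = x₂ ∨ w.im = y₁ ∨ w.im = y₂
  · exact hM w hwK.1.1 hwK.1.2 hwK.2.1 hwK.2.2 hb
  · exfalso
    push Not at hb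
    obtain ⟨b1, b2, b3, b4⟩ := hb
    set U : Set ℂ := Ioo x₁ x₂ ×ℂ Ioo y₁ y₂ with hU
    have hUo : IsOpen U := isOpen_Ioo.reProdIm isOpen_Ioo
    have hUK : U ⊆ K := fun v hv => ⟨⟨hv.1.1.le, hv.1.2.le⟩, ⟨hv.2.1.le, hv.2.2.le⟩⟩
    have hwU : w ∈ U := ⟨⟨lt_of_le_of_ne hwK.1.1 (Ne.symm b1), lt_of_le_of_ne hwK.1.2 b2⟩,
      ⟨lt_of_le_of_ne hwK.2.1 (Ne.symm b3), lt_of_le_of_ne hwK.2.2 b4⟩⟩
    have ho := hop U (hUK.trans hKV) hUo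
    have hsub : F '' U ⊆ Metric.closedBall c ‖F w - c‖ := by
      rintro _ ⟨v, hv, rfl⟩
      rw [Metric.mem_closedBall, dist_eq_norm]
      exact hw (hUK hv)
    have hin : F w ∈ interior (Metric.closedBall c ‖F w - c‖) :=
      mem_interior.2 ⟨F '' U, hsub, ho, ⟨w, hwU, rfl⟩⟩
    rw [interior_closedBall'] at hin
    rw [Metric.mem_ball, dist_eq_norm] at hin
    exact lt_irrefl _ hin

theorem main : TaskMaxL := by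
  intro F V _ hF hop x₁ x₂ y₁ y₂ M c z hV h1 h2 h3 h4 hM
  exact max_aux F V hF hop x₁ x₂ y₁ y₂ M c z hV h1 h2 h3 h4 hM

end Q137.GL.TaskMaxL
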