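import Pool.Agent.Q137.GL.Stmts
import Pool.Agent.Q137.GL.TaskMaxL

/-! Proof of `TaskMax`. -/

namespace Q137.GL.TaskMax

theorem main : TaskMax := by
  intro h x₁ x₂ y₁ y₂ M c z h1 h2 h3 h4 hM
  exact Q137.GL.TaskMaxL.max_aux h Set.univ h.continuous.continuousOn
    (fun U _ hU => h.isOpenMap U hU) x₁ x₂ y₁ y₂ M c z (fun _ _ _ _ _ => Set.mem_univ _) h1 h2 h3 h4 hM

end Q137.GL.TaskMax
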