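import Pool.Agent.Q137.GL.Stmts

set_option autoImplicit false

namespace Q137.GL.TaskRect

open MeasureTheory Set Filter Topology
open Q137.GL

theorem main : TaskRect := by
  intro hMax h z₀ B p q ρ ε hρ hε H hD
  obtain ⟨j, hj⟩ := exists_nat_gt ((2 * ε + ‖p‖ + ‖q‖) / ε)
  have hjp : (0 : ℝ) < (j : ℝ) + 1 := by positivity
  have hj1 : (2 * ε + ‖p‖ + ‖q‖) ≤ ε * ((j : ℝ) + 1) := by
    have h1 := (div_lt_iff₀ hε).1 hj
    nlinarith
  obtain ⟨⟨δ₁, hδ₁, h1⟩, ⟨δ₂, hδ₂, h2⟩⟩ := hD j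
  refine ⟨min (ρ / 2) (min (δ₁ / 2) (δ₂ / 2)), by positivity, ?_⟩
  intro x y hx hy
  have hx1 := (le_min_iff.1 hx).1
  have hx2 := (le_min_iff.1 (le_min_iff.1 hx).2).1
  have hx3 := (le_min_iff.1 (le_min_iff.1 hx).2).2
  have hy1 := (le_min_iff.1 hy).1
  have hy2 := (le_min_iff.1 (le_min_iff.1 hy).2).1
  have hy3 := (le_min_iff.1 (le_min_iff.1 hy).2).2
  have hax := abs_nonneg x
  have hay := abs_nonneg y
  obtain ⟨r, hr⟩ : ∃ r, r = max |x| |y| := ⟨_, rfl⟩
  have hxr : |x| ≤ r := hr ▸ le_max_left _ _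
  have hyr : |y| ≤ r := hr ▸ le_max_right _ _
  have hrs : r ≤ |x| + |y| := by rw [hr]; exact max_le (by linarith) (by linarith)
  have hr0 : 0 ≤ r := hax.trans hxr
  rcases eq_or_lt_of_le hr0 with h0 | hpos
  · have e1 : x = 0 := abs_eq_zero.1 (le_antisymm (by rw [h0]; exact hxr) hax)
    have e2 : y = 0 := abs_eq_zero.1 (le_antisymm (by rw [h0]; exact hyr) hay)
    subst e1; subst e2
    simp
  · have hrρ : r ≤ ρ / 2 := by rw [hr]; exact max_le hx1 hy1
    have hrδ₁ : r < δ₁ := by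
      have : r ≤ δ₁ / 2 := by rw [hr]; exact max_le hx2 hy2
      linarith
    have hrδ₂ : r < δ₂ := by
      have : r ≤ δ₂ / 2 := by rw [hr]; exact max_le hx3 hy3
      linarith
    obtain ⟨s, hs⟩ : ∃ s, s = r / ((j : ℝ) + 1) := ⟨_, rfl⟩
    have hs0 : 0 < s := by rw [hs]; positivity
    have hsr : s ≤ r := by
      rw [hs, div_le_iff₀ hjp]
      have : (0 : ℝ) ≤ j := by positivity
      nlinarith
    have hsε : s * (2 * ε + ‖p‖ + ‖q‖) ≤ ε * r := by
      have e : s * ((j : ℝ) + 1) = r := by rw [hs]; field_simp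
      calc s * (2 * ε + ‖p‖ + ‖q‖) ≤ s * (ε * ((j : ℝ) + 1)) :=
            mul_le_mul_of_nonneg_left hj1 hs0.le
        _ = ε * (s * ((j : ℝ) + 1)) := by ring
        _ = ε * r := by rw [e]
    have ax := abs_le.1 hxr
    have ay := abs_le.1 hyr
    obtain ⟨x₁, hx₁, hx₁', hB₁⟩ := h1 r hpos hrδ₁ (x - s) (abs_le.2 ⟨by linarith, by linarith⟩)
    obtain ⟨x₂, hx₂, hx₂', hB₂⟩ := h1 r hpos hrδ₁ x (abs_le.2 ⟨by linarith, by linarith⟩)
    obtain ⟨y₁, hy₁, hy₁', hC₁⟩ := h2 r hpos hrδ₂ (y - s) (abs_le.2 ⟨by linarith, by linarith⟩)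
    obtain ⟨y₂, hy₂, hy₂', hC₂⟩ := h2 r hpos hrδ₂ y (abs_le.2 ⟨by linarith, by linarith⟩)
    rw [← hs] at hx₁' hx₂' hy₁' hy₂'
    rw [mul_one] at hB₁ hB₂
    have key := hMax h (z₀.re + x₁) (z₀.re + x₂) (z₀.im + y₁) (z₀.im + y₂)
      (ε * (|x| + |y|) + s * (2 * ε + ‖p‖ + ‖q‖)) (h z₀ + x * p + y * q)
      (z₀ + x + y * Complex.I) (by simp; linarith) (by simp; linarith) (by simp; linarith)
      (by simp; linarith) (by
        intro w hw1 hw2 hw3 hw4 hw5
        obtain ⟨x', hx'⟩ : ∃ x', x' = w.re - z₀.re := ⟨_, rfl⟩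
        obtain ⟨y', hy'⟩ : ∃ y', y' = w.im - z₀.im := ⟨_, rfl⟩
        have hw : w = z₀ + x' + y' * Complex.I := by
          apply Complex.ext
          · simp [hx']
          · simp [hy']
        have bx : |x' - x| ≤ s := abs_le.2 ⟨by linarith, by linarith⟩
        have by' : |y' - y| ≤ s := abs_le.2 ⟨by linarith, by linarith⟩
        have cx : |x'| ≤ |x| + s := by
          calc |x'| = |(x' - x) + x| := by ring_nf
            _ ≤ |x' - x| + |x| := abs_add_le _ _
            _ ≤ |x| + s := by linarith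
        have cy : |y'| ≤ |y| + s := by
          calc |y'| = |(y' - y) + y| := by ring_nf
            _ ≤ |y' - y| + |y| := abs_add_le _ _
            _ ≤ |y| + s := by linarith
        have hor : z₀ + x' ∈ B ∨ z₀ + y' * Complex.I ∈ B := by
          rcases hw5 with e | e | e | e
          · left
            have : x' = x₁ := by rw [hx', e]; ring
            rw [this]; exact hB₁
          · left
            have : x' = x₂ := by rw [hx', e]; ring
            rw [this]; exact hB₂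
          · right
            have : y' = y₁ := by rw [hy', e]; ring
            rw [this]; exact hC₁
          · right
            have : y' = y₂ := by rw [hy', e]; ring
            rw [this]; exact hC₂
        have hb := H x' y' (by linarith) (by linarith) hor
        rw [← hw] at hb
        have e1 : h w - (h z₀ + x * p + y * q) =
            (h w - h z₀ - x' * p - y' * q) + ((x' - x : ℝ) : ℂ) * p + ((y' - y : ℝ) : ℂ) * q := by
          push_cast; ring
        rw [e1]
        have t1 : ‖((x' - x : ℝ) : ℂ) * p‖ ≤ s * ‖p‖ := by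
          rw [norm_mul, Complex.norm_real, Real.norm_eq_abs]
          exact mul_le_mul_of_nonneg_right bx (norm_nonneg _)
        have t2 : ‖((y' - y : ℝ) : ℂ) * q‖ ≤ s * ‖q‖ := by
          rw [norm_mul, Complex.norm_real, Real.norm_eq_abs]
          exact mul_le_mul_of_nonneg_right by' (norm_nonneg _)
        have t3 : ε * (|x'| + |y'|) ≤ ε * (|x| + |y| + 2 * s) :=
          mul_le_mul_of_nonneg_left (by linarith) hε.le
        calc ‖(h w - h z₀ - x' * p - y' * q) + ((x' - x : ℝ) : ℂ) * p + ((y' - y : ℝ) : ℂ) * q‖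
            ≤ ‖h w - h z₀ - x' * p - y' * q‖ + ‖((x' - x : ℝ) : ℂ) * p‖ +
                ‖((y' - y : ℝ) : ℂ) * q‖ := norm_add₃_le
          _ ≤ ε * (|x| + |y| + 2 * s) + s * ‖p‖ + s * ‖q‖ := by linarith
          _ = ε * (|x| + |y|) + s * (2 * ε + ‖p‖ + ‖q‖) := by ring)
    have e2 : h (z₀ + x + y * Complex.I) - h z₀ - x * p - y * q =
        h (z₀ + x + y * Complex.I) - (h z₀ + x * p + y * q) := by ring
    rw [e2]
    refine key.trans ?_
    have : ε * r ≤ ε * (|x| + |y|) := mul_le_mul_of_nonneg_left hrs hε.le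
    have : 0 ≤ ε * (|x| + |y|) := by positivity
    linarith

end Q137.GL.TaskRect
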