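import Pool.Agent.Q137.GL.Stmts2
import Pool.Agent.Q137.GL.TaskVer

set_option autoImplicit false

namespace Q137.GL.TaskVerLB

open MeasureTheory Set Filter Topology
open Q137.HD (IsC1Curve)

theorem open_rot {V : Set ℂ} (hV : IsOpen V) : IsOpen ((fun z : ℂ => Complex.I * z) '' V) :=
  (Homeomorph.mulLeft₀ Complex.I Complex.I_ne_zero).isOpenMap V hV

theorem main : Q137.GL.TaskVerL := by
  intro hor F W hL x
  have hcont : Continuous fun z : ℂ => Complex.I * z := continuous_const.mul continuous_id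
  have hL' : Loc (fun z : ℂ => F (Complex.I * z)) ((fun z : ℂ => Complex.I * z) ⁻¹' W) := by
    refine ⟨hL.op.preimage hcont, hL.cont.comp hcont.continuousOn fun z hz => hz, ?_, ?_, ?_⟩
    · intro a ha b hb hab
      exact mul_left_cancel₀ Complex.I_ne_zero (hL.inj ha hb hab)
    · intro V hV hVo
      have e : (fun z : ℂ => F (Complex.I * z)) '' V = F '' ((fun z : ℂ => Complex.I * z) '' V) := by
        rw [Set.image_image]
      rw [e]
      refine hL.openMap _ ?_ (open_rot hVo)
      rintro _ ⟨z, hz, rfl⟩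
      exact hV hz
    · intro C hCW hC
      have e : (fun z : ℂ => F (Complex.I * z)) '' C = F '' ((fun z : ℂ => Complex.I * z) '' C) := by
        rw [Set.image_image]
      rw [e]
      refine hL.pres _ ?_ (Q137.GL.TaskVer.isC1Curve_rot hC)
      rintro _ ⟨z, hz, rfl⟩
      exact hCW hz
  have h := hor _ _ hL' (-x)
  refine h.mono fun y hy hW => ?_
  have e0 : ∀ t : ℝ, Complex.I * ((t : ℂ) + ((-x : ℝ) : ℂ) * Complex.I) = (x : ℂ) + (t : ℂ) * Complex.I := by
    intro t
    push_cast
    linear_combination (-(x : ℂ)) * Complex.I_mul_I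
  have hy' : DifferentiableAt ℝ
      (fun t : ℝ => F (Complex.I * ((t : ℂ) + ((-x : ℝ) : ℂ) * Complex.I))) y := by
    refine hy ?_
    show Complex.I * ((y : ℂ) + ((-x : ℝ) : ℂ) * Complex.I) ∈ W
    rw [e0]
    exact hW
  have e : (fun t : ℝ => F (Complex.I * ((t : ℂ) + ((-x : ℝ) : ℂ) * Complex.I))) =
      fun t : ℝ => F ((x : ℂ) + (t : ℂ) * Complex.I) := by
    funext t
    rw [e0]
  rw [e] at hy'
  exact hy'

end Q137.GL.TaskVerLB
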